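import Pool.Agent.H640R3.EG.Defs

set_option autoImplicit false

namespace Pool.Agent.H640R3.EG

open Complex Filter Topology Set

/-- The main term. -/
noncomputable def B (z : ℂ) : ℂ := Complex.exp (-Complex.exp z) * Complex.exp (-z)

theorem B_deriv (z : ℂ) : HasDerivAt B
    (Complex.exp (-Complex.exp z) * (-Complex.exp z) * Complex.exp (-z)
      + Complex.exp (-Complex.exp z) * (Complex.exp (-z) * (-1))) z := by
  have h1 : HasDerivAt (fun z => Complex.exp (-Complex.exp z))
      (Complex.exp (-Complex.exp z) * (-Complex.exp z)) z := (Complex.hasDerivAt_exp z).neg.cexp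
  have h2 : HasDerivAt (fun z : ℂ => Complex.exp (-z)) (Complex.exp (-z) * (-1)) z :=
    (hasDerivAt_neg z).cexp
  exact h1.mul h2

theorem PB_deriv (z : ℂ) : HasDerivAt (fun z => P z + B z) (-B z) z := by
  have h := (P_deriv z).add (B_deriv z)
  have h0 : Complex.exp z * Complex.exp (-z) = 1 := by
    rw [← Complex.exp_add, add_neg_cancel, Complex.exp_zero]
  have h1 : Complex.exp (-Complex.exp z) +
      (Complex.exp (-Complex.exp z) * (-Complex.exp z) * Complex.exp (-z)
      + Complex.exp (-Complex.exp z) * (Complex.exp (-z) * (-1))) = -B z := by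
    rw [B]
    linear_combination (-Complex.exp (-Complex.exp z)) * h0
  rw [h1] at h
  exact h

theorem norm_B (x v : ℝ) : ‖B (x + v * I)‖ = Real.exp (-(Real.exp x * Real.cos v)) / Real.exp x := by
  rw [B, norm_mul, Complex.norm_exp, Complex.norm_exp]
  have h1 : (-Complex.exp (x + v * I)).re = -(Real.exp x * Real.cos v) := by
    rw [Complex.neg_re, Complex.exp_re]
    simp
  have h2 : (-((x : ℂ) + v * I)).re = -x := by simp
  rw [h1, h2, Real.exp_neg x, div_eq_mul_inv]

/-- the constant -/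
noncomputable def c0 : ℝ := 2 * Real.sin (1 / 40) ^ 2

theorem c0_pos : 0 < c0 := by
  have : 0 < Real.sin (1 / 40) := Real.sin_pos_of_pos_of_lt_pi (by norm_num) (by linarith [Real.pi_gt_three])
  unfold c0
  positivity

theorem cos_gap {s v : ℝ} (hs : Real.pi / 2 ≤ s) (hsv : s ≤ v - 1 / 20) (hv : v ≤ Real.pi) :
    Real.cos v + c0 ≤ Real.cos s := by
  have h1 : Real.cos (v - 1 / 20) ≤ Real.cos s :=
    Real.cos_le_cos_of_nonneg_of_le_pi (by linarith [Real.pi_pos]) (by linarith) hsv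
  have h2 : Real.cos (v - 1 / 20) - Real.cos v =
      2 * Real.sin (v - 1 / 40) * Real.sin (1 / 40) := by
    rw [Real.cos_sub_cos]
    rw [show (v - 1 / 20 + v) / 2 = v - 1 / 40 by ring,
      show (v - 1 / 20 - v) / 2 = -(1 / 40) by ring, Real.sin_neg]
    ring
  have h3 : Real.sin (1 / 40) ≤ Real.sin (v - 1 / 40) := by
    rw [← Real.sin_pi_sub (v - 1 / 40)]
    apply Real.sin_le_sin_of_le_of_le_pi_div_two
    · linarith [Real.pi_pos]
    · linarith
    · linarith
  have h4 : 0 < Real.sin (1 / 40) :=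
    Real.sin_pos_of_pos_of_lt_pi (by norm_num) (by linarith [Real.pi_gt_three])
  have h5 : 2 * Real.sin (1 / 40) * Real.sin (1 / 40) ≤ 2 * Real.sin (v - 1 / 40) * Real.sin (1 / 40) := by
    have := mul_le_mul_of_nonneg_right h3 h4.le
    linarith
  unfold c0
  nlinarith

/-- pointwise bound 1 -/
theorem exp_bd1 {R s v : ℝ} (hR : 0 < R) (hs0 : 0 ≤ s) (hsv : s ≤ v) (hv : v ≤ Real.pi) :
    Real.exp (-(R * Real.cos s)) ≤ 1 + Real.exp (-(R * Real.cos v)) := by
  rcases le_total s (Real.pi / 2) with h | h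
  · have : 0 ≤ Real.cos s := Real.cos_nonneg_of_mem_Icc ⟨by linarith [Real.pi_pos], h⟩
    have h1 : Real.exp (-(R * Real.cos s)) ≤ 1 := by
      rw [Real.exp_le_one_iff]
      have := mul_nonneg hR.le this
      linarith
    linarith [Real.exp_pos (-(R * Real.cos v))]
  · have : Real.cos v ≤ Real.cos s := Real.cos_le_cos_of_nonneg_of_le_pi hs0 hv hsv
    have h1 : Real.exp (-(R * Real.cos s)) ≤ Real.exp (-(R * Real.cos v)) := by
      apply Real.exp_le_exp.2
      have := mul_le_mul_of_nonneg_left this hR.le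
      linarith
    linarith

theorem exp_bd2 {R s v : ℝ} (hR : 0 < R) (hs0 : 0 ≤ s) (hsv : s ≤ v - 1 / 20) (hv : v ≤ Real.pi) :
    Real.exp (-(R * Real.cos s)) ≤ 1 + Real.exp (-(R * Real.cos v)) * Real.exp (-(R * c0)) := by
  rcases le_total s (Real.pi / 2) with h | h
  · have : 0 ≤ Real.cos s := Real.cos_nonneg_of_mem_Icc ⟨by linarith [Real.pi_pos], h⟩
    have h1 : Real.exp (-(R * Real.cos s)) ≤ 1 := by
      rw [Real.exp_le_one_iff]
      have := mul_nonneg hR.le this
      linarith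
    have := mul_pos (Real.exp_pos (-(R * Real.cos v))) (Real.exp_pos (-(R * c0)))
    linarith
  · have := cos_gap h hsv hv
    have h1 : Real.exp (-(R * Real.cos s)) ≤ Real.exp (-(R * Real.cos v)) * Real.exp (-(R * c0)) := by
      rw [← Real.exp_add]
      apply Real.exp_le_exp.2
      have := mul_le_mul_of_nonneg_left this hR.le
      linarith
    linarith

/-- threshold -/
noncomputable def R0 : ℝ := 20 * Real.pi / c0

theorem R0_pos : 0 < R0 := div_pos (by positivity) c0_pos

theorem exp_small {R : ℝ} (hR : R0 ≤ R) : Real.pi * Real.exp (-(R * c0)) ≤ 1 / 20 := by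
  have hR' : 0 < R := R0_pos.trans_le hR
  have h1 : 20 * Real.pi ≤ R * c0 := by
    have := mul_le_mul_of_nonneg_right hR c0_pos.le
    rwa [R0, div_mul_cancel₀ _ c0_pos.ne'] at this
  rw [Real.exp_neg, ← div_eq_mul_inv, div_le_div_iff₀ (Real.exp_pos _) (by norm_num)]
  have := Real.add_one_le_exp (R * c0)
  linarith

/-- Segment bound along a vertical line. -/
theorem seg_bd (x σ a b C : ℝ) (hσ : σ = 1 ∨ σ = -1) (hab : a ≤ b)
    (hC : ∀ s, a ≤ s → s ≤ b → Real.exp (-(Real.exp x * Real.cos s)) ≤ C) :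
    ‖(P (x + (σ * b : ℝ) * I) + B (x + (σ * b : ℝ) * I)) -
      (P (x + (σ * a : ℝ) * I) + B (x + (σ * a : ℝ) * I))‖ ≤ C / Real.exp x * (b - a) := by
  have hd : ∀ s : ℝ, HasDerivAt (fun s : ℝ => P (x + (σ * s : ℝ) * I) + B (x + (σ * s : ℝ) * I))
      (-B (x + (σ * s : ℝ) * I) * (σ * I)) s := by
    intro s
    have h1 : HasDerivAt (fun s : ℝ => (x : ℂ) + (σ * s : ℝ) * I) (σ * I) s := by
      have h2 : HasDerivAt (fun s : ℝ => ((σ * s : ℝ) : ℂ)) ((σ * 1 : ℝ) : ℂ) s :=
        ((hasDerivAt_id s).const_mul σ).ofReal_comp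
      have h3 := (h2.mul_const I).const_add (x : ℂ)
      rw [mul_one] at h3
      exact h3
    exact (PB_deriv _).comp s h1
  have key := (convex_Icc a b).norm_image_sub_le_of_norm_hasDerivWithin_le
    (f := fun s : ℝ => P (x + (σ * s : ℝ) * I) + B (x + (σ * s : ℝ) * I))
    (f' := fun s => -B (x + (σ * s : ℝ) * I) * (σ * I)) (C := C / Real.exp x) (x := a) (y := b)
    (fun s _ => (hd s).hasDerivWithinAt)
    (fun s hs => by
      rw [norm_mul, norm_neg, norm_B, norm_mul, Complex.norm_I, Complex.norm_real]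
      have h1 : ‖σ‖ = 1 := by rcases hσ with rfl | rfl <;> simp
      have h2 : Real.cos (σ * s) = Real.cos s := by
        rcases hσ with rfl | rfl
        · rw [one_mul]
        · rw [neg_one_mul, Real.cos_neg]
      rw [h1, h2, one_mul, mul_one]
      exact div_le_div_of_nonneg_right (hC s hs.1 hs.2) (Real.exp_pos x).le)
    (left_mem_Icc.2 hab) (right_mem_Icc.2 hab)
  rw [Real.norm_of_nonneg (sub_nonneg.2 hab)] at key
  exact key

/-- **Main estimate.** -/
theorem main_est {x v : ℝ} (hx : R0 ≤ Real.exp x) (hv : |v| ≤ Real.pi) :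
    ‖P (x + v * I) + B (x + v * I)‖ ≤ 6 / Real.exp x
      + Real.exp (-(Real.exp x * Real.cos v)) / Real.exp x / 10 := by
  set R := Real.exp x with hR
  have hRpos : 0 < R := Real.exp_pos x
  obtain ⟨σ, w, hσ, hw0, hwv, hvw⟩ : ∃ σ w : ℝ, (σ = 1 ∨ σ = -1) ∧ 0 ≤ w ∧ w ≤ Real.pi ∧ v = σ * w := by
    rcases le_total 0 v with h | h
    · exact ⟨1, v, Or.inl rfl, h, by rwa [abs_of_nonneg h] at hv, by ring⟩
    · exact ⟨-1, -v, Or.inr rfl, by linarith, by rwa [abs_of_nonpos h] at hv, by ring⟩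
  have hcos : Real.cos v = Real.cos w := by
    rw [hvw]
    rcases hσ with rfl | rfl
    · rw [one_mul]
    · rw [neg_one_mul, Real.cos_neg]
  rw [hcos, hvw]
  set E := Real.exp (-(R * Real.cos w)) with hE
  have hEpos : 0 < E := Real.exp_pos _
  set m := max 0 (w - 1 / 20) with hm
  have hm0 : 0 ≤ m := le_max_left _ _
  have hmw : m ≤ w := max_le hw0 (by linarith)
  have hmw2 : w - m ≤ 1 / 20 := by
    have := le_max_right 0 (w - 1 / 20)
    linarith
  -- value at 0
  have h0 : ‖P (x + (σ * 0 : ℝ) * I) + B (x + (σ * 0 : ℝ) * I)‖ ≤ 2 / R := by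
    have h1 : ((x : ℂ) + ((σ * 0 : ℝ) : ℂ) * I) = (x : ℂ) := by simp
    rw [h1]
    refine (norm_add_le _ _).trans ?_
    have h2 := norm_P_real_le x
    have h3 := norm_B x 0
    rw [Complex.ofReal_zero, zero_mul, add_zero] at h3
    rw [h3, Real.cos_zero, mul_one]
    have h4 : Real.exp (-R) ≤ 1 := by
      rw [Real.exp_le_one_iff]; linarith
    have h5 : Real.exp (-R) / R ≤ 1 / R := div_le_div_of_nonneg_right h4 hRpos.le
    have h6 : Real.exp (-x) = 1 / R := by rw [Real.exp_neg, hR, one_div]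
    rw [h6] at h2
    rw [hR] at h5 h2 ⊢
    have : 2 / Real.exp x = 1 / Real.exp x + 1 / Real.exp x := by ring
    rw [this]
    exact add_le_add h2 h5
  -- first segment
  have h1 : ‖(P (x + (σ * m : ℝ) * I) + B (x + (σ * m : ℝ) * I)) -
      (P (x + (σ * 0 : ℝ) * I) + B (x + (σ * 0 : ℝ) * I))‖
      ≤ (1 + E * Real.exp (-(R * c0))) / R * (m - 0) := by
    rcases le_total 0 (w - 1 / 20) with hc | hc
    · have hmm : m = w - 1 / 20 := max_eq_right hc
      apply seg_bd x σ 0 m _ hσ hm0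
      intro s hs0 hs1
      exact exp_bd2 hRpos hs0 (by rw [← hmm]; exact hs1) hwv
    · have hmm : m = 0 := max_eq_left hc
      rw [hmm]
      simp
  have h2 := seg_bd x σ m w (1 + E) hσ hmw (fun s hs0 hs1 =>
    exp_bd1 hRpos (hm0.trans hs0) hs1 hwv)
  rw [sub_zero] at h1
  have hmpi : m ≤ Real.pi := hmw.trans hwv
  have h3 : (1 + E * Real.exp (-(R * c0))) / R * m ≤ (Real.pi + E / 20) / R := by
    have h4 : (1 + E * Real.exp (-(R * c0))) * m ≤ Real.pi + E / 20 := by
      have h5 : (1 + E * Real.exp (-(R * c0))) * m ≤ (1 + E * Real.exp (-(R * c0))) * Real.pi := by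
        apply mul_le_mul_of_nonneg_left hmpi
        positivity
      have h6 := mul_le_mul_of_nonneg_left (exp_small hx) hEpos.le
      nlinarith
    calc (1 + E * Real.exp (-(R * c0))) / R * m = ((1 + E * Real.exp (-(R * c0))) * m) / R := by ring
      _ ≤ _ := div_le_div_of_nonneg_right h4 hRpos.le
  have h7 : (1 + E) / R * (w - m) ≤ (1 / 20 + E / 20) / R := by
    have h8 : (1 + E) * (w - m) ≤ 1 / 20 + E / 20 := by
      have := mul_le_mul_of_nonneg_left hmw2 (by positivity : 0 ≤ 1 + E)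
      linarith
    calc (1 + E) / R * (w - m) = ((1 + E) * (w - m)) / R := by ring
      _ ≤ _ := div_le_div_of_nonneg_right h8 hRpos.le
  have htri : ‖P (x + (σ * w : ℝ) * I) + B (x + (σ * w : ℝ) * I)‖ ≤ 2 / R +
      ((Real.pi + E / 20) / R + (1 / 20 + E / 20) / R) := by
    calc ‖P (x + (σ * w : ℝ) * I) + B (x + (σ * w : ℝ) * I)‖
        = ‖(P (x + (σ * 0 : ℝ) * I) + B (x + (σ * 0 : ℝ) * I)) +
          (((P (x + (σ * m : ℝ) * I) + B (x + (σ * m : ℝ) * I)) -
            (P (x + (σ * 0 : ℝ) * I) + B (x + (σ * 0 : ℝ) * I))) +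
          ((P (x + (σ * w : ℝ) * I) + B (x + (σ * w : ℝ) * I)) -
            (P (x + (σ * m : ℝ) * I) + B (x + (σ * m : ℝ) * I))))‖ := by
          congr 1
          ring
      _ ≤ _ := by
          refine (norm_add_le _ _).trans (add_le_add h0 ((norm_add_le _ _).trans ?_))
          exact add_le_add (h1.trans h3) (h2.trans h7)
  refine htri.trans ?_
  have hpi : Real.pi ≤ 3.15 := Real.pi_lt_d2.le
  have h9 : 2 / R + ((Real.pi + E / 20) / R + (1 / 20 + E / 20) / R) =
      (2 + Real.pi + 1 / 20) / R + E / R / 10 := by ring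
  rw [h9]
  have h10 : (2 + Real.pi + 1 / 20) / R ≤ 6 / R :=
    div_le_div_of_nonneg_right (by linarith) hRpos.le
  linarith

end Pool.Agent.H640R3.EG
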