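import Pool.Agent.H640R3.EG.Low

set_option autoImplicit false

namespace Pool.Agent.H640R3.EG

open Complex Filter Topology Set Metric

theorem factor_zeros {F : ℂ → ℂ} (hF : Differentiable ℂ F) (u : Finset ℂ) (hu : ∀ t ∈ u, F t = 0) :
    ∃ H : ℂ → ℂ, Differentiable ℂ H ∧ ∀ z, F z = (∏ t ∈ u, (z - t)) * H z := by
  classical
  induction u using Finset.induction_on with
  | empty => exact ⟨F, hF, by simp⟩
  | insert a s ha ih =>
    obtain ⟨H, hH, hz⟩ := ih fun t ht => hu t (Finset.mem_insert_of_mem ht)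
    have h1 : H a = 0 := by
      have h2 := hu a (Finset.mem_insert_self a s)
      rw [hz a] at h2
      rcases mul_eq_zero.1 h2 with h3 | h3
      · exfalso
        rw [Finset.prod_eq_zero_iff] at h3
        obtain ⟨t, ht, h4⟩ := h3
        rw [sub_eq_zero] at h4
        rw [h4] at ha
        exact ha ht
      · exact h3
    refine ⟨dslope H a, ?_, ?_⟩
    · have := (Complex.differentiableOn_dslope (s := (univ : Set ℂ)) (c := a) univ_mem).2
        hH.differentiableOn
      exact differentiableOn_univ.1 this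
    · intro z
      have h5 := sub_smul_dslope H a z
      rw [h1, sub_zero, smul_eq_mul] at h5
      rw [hz z, Finset.prod_insert ha, ← h5]
      ring

theorem two_pow_card_le {F : ℂ → ℂ} (hF : Differentiable ℂ F) (p : ℂ) {r M : ℝ} (hr : 0 < r)
    (hM : ∀ z, ‖z - p‖ ≤ 3 * r → ‖F z‖ ≤ M) (u : Finset ℂ) (hu : ∀ t ∈ u, F t = 0)
    (hu2 : ∀ t ∈ u, ‖p - t‖ ≤ r) : ‖F p‖ * 2 ^ u.card ≤ M := by
  obtain ⟨H, hH, hz⟩ := factor_zeros hF u hu
  have h1 : ∀ z ∈ frontier (ball p (3 * r)), ‖H z‖ ≤ M / (2 * r) ^ u.card := by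
    intro z hz'
    rw [frontier_ball p (by positivity), mem_sphere, dist_eq_norm] at hz'
    rw [le_div_iff₀ (by positivity)]
    have h2 := hM z hz'.le
    rw [hz z, norm_mul, norm_prod] at h2
    have h3 : (2 * r) ^ u.card ≤ ∏ t ∈ u, ‖z - t‖ := by
      rw [← Finset.prod_const]
      apply Finset.prod_le_prod
      · intro _ _; positivity
      · intro t ht
        have h4 := hu2 t ht
        have h5 : ‖z - p‖ ≤ ‖z - t‖ + ‖p - t‖ := by
          have := norm_sub_le (z - t) (p - t)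
          rwa [sub_sub_sub_cancel_right] at this
        linarith
    calc ‖H z‖ * (2 * r) ^ u.card ≤ ‖H z‖ * ∏ t ∈ u, ‖z - t‖ :=
          mul_le_mul_of_nonneg_left h3 (norm_nonneg _)
      _ = (∏ t ∈ u, ‖z - t‖) * ‖H z‖ := mul_comm _ _
      _ ≤ M := h2
  have h2 : ‖H p‖ ≤ M / (2 * r) ^ u.card :=
    Complex.norm_le_of_forall_mem_frontier_norm_le isBounded_ball hH.diffContOnCl h1
      (subset_closure (mem_ball_self (by positivity)))
  have h3 : ‖F p‖ ≤ r ^ u.card * (M / (2 * r) ^ u.card) := by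
    rw [hz p, norm_mul, norm_prod]
    apply mul_le_mul _ h2 (norm_nonneg _) (by positivity)
    rw [← Finset.prod_const]
    apply Finset.prod_le_prod
    · intro _ _; positivity
    · intro t ht
      exact hu2 t ht
  have h4 : r ^ u.card * (M / (2 * r) ^ u.card) = M / 2 ^ u.card := by
    rw [mul_pow]
    field_simp
  rw [h4, le_div_iff₀ (by positivity)] at h3
  exact h3

/-- the constant in the counting bound -/
noncomputable def CC : ℝ := 2 * (3 + |LL|) * Real.exp 13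

theorem CC_pos : 0 < CC := by
  unfold CC
  have := abs_nonneg LL
  positivity

theorem card_box (n : ℕ) (k : ℤ) (u : Finset ℂ) (hu : ∀ t ∈ u, G t = 0)
    (h1 : ∀ t ∈ u, (n : ℝ) ≤ t.re) (h2 : ∀ t ∈ u, t.re ≤ n + 1)
    (h3 : ∀ t ∈ u, |t.im - (2 * k + 1) * Real.pi| ≤ Real.pi) :
    (u.card : ℝ) ≤ CC * Real.exp n := by
  set a : ℝ := |2 * (k : ℝ) + 1| * Real.pi with ha
  have hpi := Real.pi_gt_three
  have hpi4 := Real.pi_lt_d2
  have ha1 : 1 ≤ a := by
    have := one_le_abs_odd k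
    nlinarith
  set p : ℂ := ((n + 1 / 2 : ℝ) : ℂ) + ((2 * k + 1) * Real.pi : ℝ) * I with hp
  have hpre : p.re = n + 1 / 2 := by rw [hp]; simp
  have hpim : p.im = (2 * k + 1) * Real.pi := by rw [hp]; simp
  have hGp : a ≤ ‖G p‖ := low_horiz _ k
  have hpn : ‖p‖ ≤ n + 1 / 2 + a := by
    refine (norm_add_le _ _).trans ?_
    rw [Complex.norm_real, norm_mul, Complex.norm_I, mul_one, Complex.norm_real, Real.norm_eq_abs,
      Real.norm_eq_abs, abs_mul, abs_of_pos Real.pi_pos, ← ha, abs_of_nonneg (by positivity)]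
  set E := Real.exp (n + 13) with hE
  have hE1 : (n : ℝ) + 14 ≤ E := by
    have := Real.add_one_le_exp ((n : ℝ) + 13)
    linarith
  have hn0 : (0 : ℝ) ≤ n := Nat.cast_nonneg n
  have hM : ∀ z, ‖z - p‖ ≤ 3 * 4 → ‖G z‖ ≤ a + (n + 13 + |LL| + E * Real.exp E) := by
    intro z hz
    have h4 : z.re ≤ n + 13 := by
      have := (le_abs_self _).trans (Complex.abs_re_le_norm (z - p))
      rw [Complex.sub_re, hpre] at this
      linarith
    have h5 : ‖Complex.exp z‖ ≤ E := by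
      rw [Complex.norm_exp]
      exact Real.exp_le_exp.2 h4
    have h6 : ‖hh (Complex.exp z)‖ ≤ E * Real.exp E := by
      refine (norm_hh_le _).trans ?_
      exact mul_le_mul h5 (Real.exp_le_exp.2 h5) (Real.exp_pos _).le (by positivity)
    have h7 : ‖z‖ ≤ n + 1 / 2 + a + 12 := by
      have := norm_add_le (z - p) p
      rw [sub_add_cancel] at this
      linarith
    have h8 : ‖G z‖ ≤ ‖z‖ + ‖hh (Complex.exp z)‖ + ‖(LL : ℂ)‖ :=
      (norm_sub_le _ _).trans (add_le_add_left (norm_add_le _ _) _)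
    rw [Complex.norm_real, Real.norm_eq_abs] at h8
    linarith
  have key := two_pow_card_le G_diff p (r := 4) (by norm_num) hM u hu (by
    intro t ht
    have e1 := h1 t ht
    have e2 := h2 t ht
    have e3 := h3 t ht
    have h9 := Complex.norm_le_abs_re_add_abs_im (p - t)
    rw [Complex.sub_re, Complex.sub_im, hpre, hpim] at h9
    have h10 : |(n : ℝ) + 1 / 2 - t.re| ≤ 1 / 2 := by
      rw [abs_le]; constructor <;> linarith
    rw [abs_sub_comm] at e3
    linarith)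
  have h11 : a * 2 ^ u.card ≤ a + (n + 13 + |LL| + E * Real.exp E) :=
    (mul_le_mul_of_nonneg_right hGp (by positivity)).trans key
  have hLL := abs_nonneg LL
  have hEpos : 0 < E := Real.exp_pos _
  have h12 : (2 : ℝ) ^ u.card ≤ Real.exp ((3 + |LL|) * E) := by
    have h13 : (2 : ℝ) ^ u.card ≤ 1 + (n + 13 + |LL| + E * Real.exp E) := by
      have h14 : a * 2 ^ u.card ≤ a * (1 + (n + 13 + |LL| + E * Real.exp E)) := by
        have h15 : (0 : ℝ) ≤ (n + 13 + |LL| + E * Real.exp E) := by positivity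
        nlinarith
      exact le_of_mul_le_mul_left h14 (by linarith)
    have hEE : E ≤ Real.exp E := by
      have := Real.add_one_le_exp E
      linarith
    have h1E : 1 ≤ Real.exp E := Real.one_le_exp hEpos.le
    have h16 : 1 + (n + 13 + |LL| + E * Real.exp E) ≤ (2 + |LL|) * (Real.exp E * Real.exp E) := by
      have e1 : E ≤ Real.exp E * Real.exp E := by nlinarith
      have e2 : |LL| ≤ |LL| * (Real.exp E * Real.exp E) := by
        have : 1 ≤ Real.exp E * Real.exp E := by nlinarith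
        nlinarith
      have e3 : E * Real.exp E ≤ Real.exp E * Real.exp E :=
        mul_le_mul_of_nonneg_right hEE (Real.exp_pos _).le
      linarith
    have h17 : 2 + |LL| ≤ Real.exp (1 + |LL|) := by
      have := Real.add_one_le_exp (1 + |LL|)
      linarith
    have h18 : (2 + |LL|) * (Real.exp E * Real.exp E) ≤ Real.exp ((3 + |LL|) * E) := by
      calc (2 + |LL|) * (Real.exp E * Real.exp E) ≤ Real.exp (1 + |LL|) * (Real.exp E * Real.exp E) :=
            mul_le_mul_of_nonneg_right h17 (by positivity)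
        _ = Real.exp (1 + |LL| + (E + E)) := by rw [← Real.exp_add, ← Real.exp_add]
        _ ≤ _ := by
            apply Real.exp_le_exp.2
            have : 1 ≤ E := by linarith
            nlinarith
    linarith
  have h19 := Real.log_le_log (by positivity) h12
  rw [Real.log_exp, Real.log_pow] at h19
  have h20 : (1 : ℝ) / 2 ≤ Real.log 2 := by linarith [Real.log_two_gt_d9]
  have h21 : (u.card : ℝ) * (1 / 2) ≤ u.card * Real.log 2 :=
    mul_le_mul_of_nonneg_left h20 (Nat.cast_nonneg _)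
  have h22 : E = Real.exp 13 * Real.exp n := by
    rw [hE, ← Real.exp_add, add_comm]
  have h23 : CC * Real.exp n = 2 * ((3 + |LL|) * E) := by
    rw [CC, h22]; ring
  rw [h23]
  linarith

/-- bound for one term -/
theorem zero_bd {t : ℂ} (ht : G t = 0) (h0 : R0 ≤ Real.exp t.re) (h60 : 60 ≤ Real.exp t.re) {k : ℤ}
    (hk : |t.im - (2 * k + 1) * Real.pi| ≤ Real.pi) :
    ‖Complex.exp (-Complex.exp t)‖ ≤ 2 / (|2 * (k : ℝ) + 1| * Real.pi * Real.exp t.re) := by
  set v := t.im - (2 * k + 1) * Real.pi with hv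
  set R := Real.exp t.re with hR
  have hRpos : 0 < R := Real.exp_pos _
  have hpi := Real.pi_gt_three
  have ht1 : t = ((t.re : ℂ) + (v : ℝ) * I) + ((2 * k + 1) * Real.pi : ℝ) * I := by
    apply Complex.ext
    · simp
    · simp [hv]
  set w : ℂ := (t.re : ℂ) + (v : ℝ) * I with hw
  have hG : ((2 * k + 1) * Real.pi : ℝ) * I + P w = 0 := by
    rw [← G_eq, ← ht1, ht]
  have hPn : ‖P w‖ = |2 * (k : ℝ) + 1| * Real.pi := by
    have h1 : P w = -(((2 * k + 1) * Real.pi : ℝ) * I) := by linear_combination hG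
    rw [h1, norm_neg, norm_mul, Complex.norm_I, mul_one, Complex.norm_real, Real.norm_eq_abs, abs_mul,
      abs_of_pos Real.pi_pos]
  set a := |2 * (k : ℝ) + 1| * Real.pi with ha
  have ha1 : 3 ≤ a := by
    have := one_le_abs_odd k
    nlinarith
  have hmain := main_est (x := t.re) (v := v) h0 hk
  have hB := norm_B t.re v
  rw [← hB, ← hR, ← hw] at hmain
  have h6 : 6 / R ≤ 1 / 10 := by
    rw [div_le_div_iff₀ hRpos (by norm_num)]
    linarith
  have hPle : ‖P w‖ ≤ ‖P w + B w‖ + ‖B w‖ := by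
    have := norm_sub_le (P w + B w) (B w)
    rwa [add_sub_cancel_right] at this
  have hBlow : a / 2 ≤ ‖B w‖ := by linarith
  have hcos : Real.cos t.im = -Real.cos v := by
    have h1 : t.im = (v + Real.pi) + k * (2 * Real.pi) := by rw [hv]; ring
    rw [h1, Real.cos_add_int_mul_two_pi, Real.cos_add_pi]
  have hc : ‖Complex.exp (-Complex.exp t)‖ = Real.exp (R * Real.cos v) := by
    rw [Complex.norm_exp, Complex.neg_re, Complex.exp_re, ← hR, hcos]
    congr 1
    ring
  rw [hc]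
  rw [hw, hB, ← hR, Real.exp_neg] at hBlow
  rw [le_div_iff₀ (by positivity)]
  rw [le_div_iff₀ hRpos] at hBlow
  have hXpos := Real.exp_pos (R * Real.cos v)
  have h2 : Real.exp (R * Real.cos v) * (a / 2 * R) ≤ 1 := by
    have := mul_le_mul_of_nonneg_left hBlow hXpos.le
    rwa [mul_inv_cancel₀ hXpos.ne'] at this
  linarith

/-- the bound for terms of a box -/
theorem term_bd {t : ℂ} (ht : G t = 0) (h0 : R0 ≤ Real.exp t.re) (h60 : 60 ≤ Real.exp t.re) {k : ℤ}
    (hk : |t.im - (2 * k + 1) * Real.pi| ≤ Real.pi) {n : ℕ} (hn : 1 ≤ n) (hn1 : (n : ℝ) ≤ t.re) :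
    Real.exp n * (‖Complex.exp (-Complex.exp t)‖ / ‖t‖ ^ 2) ≤
      4 * ((1 / (n : ℝ) ^ (3 / 2 : ℝ)) * (1 / |(k : ℝ) + 1 / 2| ^ (3 / 2 : ℝ))) := by
  have hz := zero_bd ht h0 h60 hk
  set κ := |2 * (k : ℝ) + 1| with hκ
  have hκ1 : 1 ≤ κ := one_le_abs_odd k
  have hpi := Real.pi_gt_three
  have hn1' : (1 : ℝ) ≤ n := by exact_mod_cast hn
  have hκ2 : κ = 2 * |(k : ℝ) + 1 / 2| := by
    have : 2 * (k : ℝ) + 1 = 2 * ((k : ℝ) + 1 / 2) := by ring
    rw [hκ, this, abs_mul, abs_two]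
  have him : (κ - 1) ≤ |t.im| := by
    have h1 : κ * Real.pi ≤ |t.im| + Real.pi := by
      have h2 : |(2 * (k : ℝ) + 1) * Real.pi| = κ * Real.pi := by
        rw [abs_mul, abs_of_pos Real.pi_pos]
      rw [← h2]
      have h3 : (2 * (k : ℝ) + 1) * Real.pi = t.im - (t.im - (2 * k + 1) * Real.pi) := by ring
      rw [h3]
      refine (abs_sub _ _).trans ?_
      linarith
    nlinarith
  set s : ℝ := n + (κ - 1) with hs
  have hs1 : (n : ℝ) ≤ s := by linarith
  have hs2 : κ ≤ s := by linarith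
  have hspos : 0 < s := by linarith
  have hnorm : s ^ 2 / 2 ≤ ‖t‖ ^ 2 := by
    have h1 : ‖t‖ ^ 2 = t.re ^ 2 + t.im ^ 2 := by
      rw [Complex.sq_norm, Complex.normSq_apply]; ring
    have h2 : (n : ℝ) ^ 2 ≤ t.re ^ 2 := pow_le_pow_left₀ (by linarith) hn1 2
    have h3 : (κ - 1) ^ 2 ≤ t.im ^ 2 := by
      rw [← sq_abs t.im]
      exact pow_le_pow_left₀ (by linarith) him 2
    rw [h1, hs]
    nlinarith [sq_nonneg ((n : ℝ) - (κ - 1))]
  have hrp : (n : ℝ) ^ (3 / 2 : ℝ) * κ ^ (1 / 2 : ℝ) ≤ s ^ 2 := by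
    have h1 : s ^ 2 = s ^ (3 / 2 : ℝ) * s ^ (1 / 2 : ℝ) := by
      rw [← Real.rpow_add hspos, ← Real.rpow_natCast]
      norm_num
    rw [h1]
    apply mul_le_mul
    · exact Real.rpow_le_rpow (by linarith) hs1 (by norm_num)
    · exact Real.rpow_le_rpow (by linarith) hs2 (by norm_num)
    · exact Real.rpow_nonneg (by linarith) _
    · exact Real.rpow_nonneg hspos.le _
  have hκr : κ * κ ^ (1 / 2 : ℝ) = κ ^ (3 / 2 : ℝ) := by
    have h1 : (3 / 2 : ℝ) = 1 + 1 / 2 := by norm_num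
    rw [h1, Real.rpow_add (by linarith), Real.rpow_one]
  have hκ3 : |(k : ℝ) + 1 / 2| ^ (3 / 2 : ℝ) ≤ κ ^ (3 / 2 : ℝ) := by
    apply Real.rpow_le_rpow (abs_nonneg _) _ (by norm_num)
    rw [hκ2]
    linarith [abs_nonneg ((k : ℝ) + 1 / 2)]
  have habs : 0 < |(k : ℝ) + 1 / 2| := by linarith
  have hden : (n : ℝ) ^ (3 / 2 : ℝ) * |(k : ℝ) + 1 / 2| ^ (3 / 2 : ℝ) ≤ κ * s ^ 2 := by
    have h1 := mul_le_mul_of_nonneg_left hrp (by linarith : 0 ≤ κ)
    have h2 : κ * ((n : ℝ) ^ (3 / 2 : ℝ) * κ ^ (1 / 2 : ℝ)) = (n : ℝ) ^ (3 / 2 : ℝ) * κ ^ (3 / 2 : ℝ) := by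
      rw [← hκr]; ring
    rw [h2] at h1
    refine le_trans ?_ h1
    exact mul_le_mul_of_nonneg_left hκ3 (Real.rpow_nonneg (by linarith) _)
  have hdpos : 0 < (n : ℝ) ^ (3 / 2 : ℝ) * |(k : ℝ) + 1 / 2| ^ (3 / 2 : ℝ) := by
    apply mul_pos
    · exact Real.rpow_pos_of_pos (by linarith) _
    · exact Real.rpow_pos_of_pos habs _
  have hEn : Real.exp n ≤ Real.exp t.re := Real.exp_le_exp.2 hn1
  have hEpos : 0 < Real.exp t.re := Real.exp_pos _
  have hc : Real.exp n * ‖Complex.exp (-Complex.exp t)‖ ≤ 2 / κ := by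
    have h1 : Real.exp n * ‖Complex.exp (-Complex.exp t)‖ ≤
        Real.exp t.re * (2 / (κ * Real.pi * Real.exp t.re)) :=
      mul_le_mul hEn hz (norm_nonneg _) hEpos.le
    refine h1.trans ?_
    have h2 : Real.exp t.re * (2 / (κ * Real.pi * Real.exp t.re)) = 2 / (κ * Real.pi) := by
      field_simp
    rw [h2]
    apply div_le_div_of_nonneg_left (by norm_num) (by linarith)
    nlinarith
  have htpos : 0 < ‖t‖ ^ 2 := lt_of_lt_of_le (by positivity) hnorm
  calc Real.exp n * (‖Complex.exp (-Complex.exp t)‖ / ‖t‖ ^ 2)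
      = (Real.exp n * ‖Complex.exp (-Complex.exp t)‖) / ‖t‖ ^ 2 := by ring
    _ ≤ (2 / κ) / ‖t‖ ^ 2 := div_le_div_of_nonneg_right hc htpos.le
    _ ≤ (2 / κ) / (s ^ 2 / 2) := by
        apply div_le_div_of_nonneg_left (by positivity) (by positivity) hnorm
    _ = 4 / (κ * s ^ 2) := by field_simp; norm_num
    _ ≤ 4 / ((n : ℝ) ^ (3 / 2 : ℝ) * |(k : ℝ) + 1 / 2| ^ (3 / 2 : ℝ)) :=
        div_le_div_of_nonneg_left (by norm_num) hdpos hden
    _ = _ := by field_simp

end Pool.Agent.H640R3.EG
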