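import Mathlib

set_option autoImplicit false

namespace Pool.Agent.H640R3.EG

open Complex Filter Topology Set

/-- `(exp w - 1) / w`, extended by `1` at `0`. -/
noncomputable def kk (w : ℂ) : ℂ := dslope Complex.exp 0 w

theorem kk_diff : Differentiable ℂ kk := by
  intro w
  rcases eq_or_ne w 0 with rfl | hw
  · have h : DifferentiableOn ℂ (dslope Complex.exp 0) (univ : Set ℂ) :=
      (Complex.differentiableOn_dslope (by simp)).2 Complex.differentiable_exp.differentiableOn
    exact (h 0 (mem_univ _)).differentiableAt univ_mem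
  · exact (differentiableAt_dslope_of_ne hw).2 Complex.differentiable_exp.differentiableAt

theorem mul_kk (w : ℂ) : w * kk w = Complex.exp w - 1 := by
  have := sub_smul_dslope Complex.exp 0 w
  simpa [kk, smul_eq_mul] using this

theorem kk_zero : kk 0 = 1 := by
  simp [kk, dslope_same]

theorem norm_kk_le (w : ℂ) : ‖kk w‖ ≤ Real.exp ‖w‖ := by
  rcases eq_or_ne w 0 with rfl | hw
  · simp [kk_zero]
  · have h1 : ‖w‖ * ‖kk w‖ = ‖Complex.exp w - 1‖ := by
      rw [← norm_mul, mul_kk]
    have h2 : ‖Complex.exp w - 1‖ ≤ ‖w‖ * Real.exp ‖w‖ := by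
      have h := (convex_closedBall (0 : ℂ) ‖w‖).norm_image_sub_le_of_norm_hasDerivWithin_le
        (f := Complex.exp) (f' := Complex.exp) (C := Real.exp ‖w‖) (x := 0) (y := w)
        (fun x _ => (Complex.hasDerivAt_exp x).hasDerivWithinAt)
        (fun x hx => by
          rw [Complex.norm_exp]
          refine Real.exp_le_exp.2 ((Complex.re_le_norm x).trans ?_)
          simpa using hx)
        (by simp) (by simp)
      rw [Complex.exp_zero, sub_zero, mul_comm] at h
      exact h
    have h3 : 0 < ‖w‖ := norm_pos_iff.2 hw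
    rw [← h1] at h2
    exact le_of_mul_le_mul_left h2 h3

theorem kk_conj (w : ℂ) : kk ((starRingEnd ℂ) w) = (starRingEnd ℂ) (kk w) := by
  rcases eq_or_ne w 0 with rfl | hw
  · simp [kk_zero]
  · have h1 : (starRingEnd ℂ) w ≠ 0 := by simpa using hw
    have h2 := mul_kk ((starRingEnd ℂ) w)
    have h3 := congrArg (starRingEnd ℂ) (mul_kk w)
    rw [map_mul, map_sub, map_one, ← Complex.exp_conj, ← h2] at h3
    exact (mul_left_cancel₀ h1 h3).symm

theorem exists_hh : ∃ h : ℂ → ℂ, h 0 = 0 ∧ ∀ w, HasDerivAt h (kk w) w := by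
  obtain ⟨g, hg⟩ := kk_diff.isExactOn_univ
  refine ⟨fun w => g w - g 0, by simp, fun w => ?_⟩
  simpa using (hg w (mem_univ _)).sub_const (g 0)

/-- The entire function `∑ w^n / (n * n!)`. -/
noncomputable def hh : ℂ → ℂ := exists_hh.choose

theorem hh_zero : hh 0 = 0 := exists_hh.choose_spec.1

theorem hh_deriv (w : ℂ) : HasDerivAt hh (kk w) w := exists_hh.choose_spec.2 w

theorem hh_diff : Differentiable ℂ hh := fun w => (hh_deriv w).differentiableAt

theorem hh_conj (w : ℂ) : hh ((starRingEnd ℂ) w) = (starRingEnd ℂ) (hh w) := by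
  have h1 : ∀ w, HasDerivAt (fun w => (starRingEnd ℂ) (hh ((starRingEnd ℂ) w))) (kk w) w := by
    intro w
    have := (hh_deriv ((starRingEnd ℂ) w)).conj_conj
    rw [kk_conj] at this
    simpa [Function.comp_def] using this
  have h2 : ∀ w, (fun w => (starRingEnd ℂ) (hh ((starRingEnd ℂ) w)) - hh w) w =
      (fun w => (starRingEnd ℂ) (hh ((starRingEnd ℂ) w)) - hh w) 0 := by
    intro w
    refine is_const_of_deriv_eq_zero (𝕜 := ℂ)
      (f := fun w => (starRingEnd ℂ) (hh ((starRingEnd ℂ) w)) - hh w) ?_ ?_ w 0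
    · intro x
      exact ((h1 x).sub (hh_deriv x)).differentiableAt
    · intro x
      have := ((h1 x).sub (hh_deriv x)).deriv
      rw [sub_self] at this
      exact this
  have h3 := h2 w
  simp only [map_zero, hh_zero, sub_zero] at h3
  have h4 : (starRingEnd ℂ) (hh ((starRingEnd ℂ) w)) = hh w := sub_eq_zero.1 h3
  rw [← h4, Complex.conj_conj]

theorem hh_real (x : ℝ) : (hh x).im = 0 := by
  have := hh_conj (x : ℂ)
  rw [Complex.conj_ofReal] at this
  have h2 := Complex.conj_eq_iff_im.1 this.symm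
  exact h2

theorem norm_hh_le (w : ℂ) : ‖hh w‖ ≤ ‖w‖ * Real.exp ‖w‖ := by
  have h := (convex_closedBall (0 : ℂ) ‖w‖).norm_image_sub_le_of_norm_hasDerivWithin_le
    (f := hh) (f' := kk) (C := Real.exp ‖w‖) (x := 0) (y := w)
    (fun x _ => (hh_deriv x).hasDerivWithinAt)
    (fun x hx => by
      refine (norm_kk_le x).trans (Real.exp_le_exp.2 ?_)
      simpa using hx)
    (by simp) (by simp)
  rw [hh_zero, sub_zero, sub_zero, mul_comm] at h
  exact h

/-- real function `x + hh (-e^x)` -/
noncomputable def pp (x : ℝ) : ℝ := x + (hh (-(Real.exp x : ℂ))).re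

theorem pp_deriv (x : ℝ) : HasDerivAt pp (Real.exp (-Real.exp x)) x := by
  have h1 : HasDerivAt (fun x : ℝ => (-(Real.exp x : ℂ))) (-(Real.exp x : ℂ)) x := by
    have := (Real.hasDerivAt_exp x).ofReal_comp
    exact this.neg
  have h2 : HasDerivAt (fun x : ℝ => hh (-(Real.exp x : ℂ)))
      (kk (-(Real.exp x : ℂ)) * (-(Real.exp x : ℂ))) x := by
    exact (hh_deriv _).comp x h1
  have h3 : HasDerivAt (fun x : ℝ => (hh (-(Real.exp x : ℂ))).re)
      (kk (-(Real.exp x : ℂ)) * (-(Real.exp x : ℂ))).re x := by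
    exact Complex.reCLM.hasFDerivAt.comp_hasDerivAt x h2
  have h4 := (hasDerivAt_id x).add h3
  have h5 : (kk (-(Real.exp x : ℂ)) * (-(Real.exp x : ℂ))).re = Real.exp (-Real.exp x) - 1 := by
    rw [mul_comm, mul_kk]
    rw [show (-(Real.exp x : ℂ)) = ((-Real.exp x : ℝ) : ℂ) by push_cast; ring]
    rw [← Complex.ofReal_exp, Complex.sub_re, Complex.ofReal_re, Complex.one_re]
  rw [h5] at h4
  have h6 : (1 : ℝ) + (Real.exp (-Real.exp x) - 1) = Real.exp (-Real.exp x) := by ring
  rw [h6] at h4
  exact h4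

theorem pp_mono : Monotone pp := by
  apply monotone_of_deriv_nonneg
  · exact fun x => (pp_deriv x).differentiableAt
  · intro x
    rw [(pp_deriv x).deriv]
    positivity

theorem pp_add_anti : Antitone (fun x => pp x + Real.exp (-x)) := by
  have hd : ∀ x, HasDerivAt (fun x => pp x + Real.exp (-x))
      (Real.exp (-Real.exp x) + (-Real.exp (-x))) x := by
    intro x
    have h1 : HasDerivAt (fun x : ℝ => Real.exp (-x)) (-Real.exp (-x)) x := by
      have := (hasDerivAt_neg x).exp
      simpa using this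
    exact (pp_deriv x).add h1
  apply antitone_of_deriv_nonpos
  · exact fun x => (hd x).differentiableAt
  · intro x
    rw [(hd x).deriv]
    have : -Real.exp x ≤ -x := by
      have := Real.add_one_le_exp x
      linarith
    have := Real.exp_le_exp.2 this
    linarith

theorem pp_bdd : BddAbove (Set.range pp) := by
  refine ⟨pp 0 + 1, ?_⟩
  rintro _ ⟨x, rfl⟩
  rcases le_total x 0 with h | h
  · have := pp_mono h
    linarith
  · have h1 := pp_add_anti h
    simp only [neg_zero, Real.exp_zero] at h1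
    have := Real.exp_pos (-x)
    linarith

/-- The limit of `pp` at infinity (minus Euler's constant). -/
noncomputable def LL : ℝ := ⨆ x, pp x

theorem pp_le (x : ℝ) : pp x ≤ LL := le_ciSup pp_bdd x

theorem LL_le (x : ℝ) : LL ≤ pp x + Real.exp (-x) := by
  apply ciSup_le
  intro y
  rcases le_total x y with h | h
  · have h1 := pp_add_anti h
    simp only at h1
    have := Real.exp_pos (-y)
    linarith
  · have := pp_mono h
    have := Real.exp_pos (-x)
    linarith

/-- `G z = z + hh (e^z) - LL`, that is `Ei (e^z)`; its derivative is `exp (exp z)`. -/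
noncomputable def G (z : ℂ) : ℂ := z + hh (Complex.exp z) - LL

/-- `P z = z + hh (-e^z) - LL`, that is `- E_1 (e^z)`. -/
noncomputable def P (z : ℂ) : ℂ := z + hh (-Complex.exp z) - LL

theorem G_deriv (z : ℂ) : HasDerivAt G (Complex.exp (Complex.exp z)) z := by
  have h1 : HasDerivAt (fun z => hh (Complex.exp z)) (kk (Complex.exp z) * Complex.exp z) z :=
    (hh_deriv _).comp z (Complex.hasDerivAt_exp z)
  have h2 := ((hasDerivAt_id z).add h1).sub_const (LL : ℂ)
  rw [mul_comm, mul_kk] at h2
  have h3 : (1 : ℂ) + (Complex.exp (Complex.exp z) - 1) = Complex.exp (Complex.exp z) := by ring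
  rw [h3] at h2
  exact h2

theorem P_deriv (z : ℂ) : HasDerivAt P (Complex.exp (-Complex.exp z)) z := by
  have h1 : HasDerivAt (fun z => hh (-Complex.exp z)) (kk (-Complex.exp z) * (-Complex.exp z)) z :=
    (hh_deriv _).comp z (Complex.hasDerivAt_exp z).neg
  have h2 := ((hasDerivAt_id z).add h1).sub_const (LL : ℂ)
  rw [mul_comm, mul_kk] at h2
  have h3 : (1 : ℂ) + (Complex.exp (-Complex.exp z) - 1) = Complex.exp (-Complex.exp z) := by ring
  rw [h3] at h2
  exact h2

theorem G_diff : Differentiable ℂ G := fun z => (G_deriv z).differentiableAt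
theorem P_diff : Differentiable ℂ P := fun z => (P_deriv z).differentiableAt

/-- Relation between `G` and `P`. -/
theorem G_eq (z : ℂ) (k : ℤ) :
    G (z + ((2 * k + 1) * Real.pi : ℝ) * I) = ((2 * k + 1) * Real.pi : ℝ) * I + P z := by
  have h : Complex.exp (z + ((2 * k + 1) * Real.pi : ℝ) * I) = -Complex.exp z := by
    have h1 : z + ((2 * k + 1) * Real.pi : ℝ) * I = (z + Real.pi * I) + k * (2 * Real.pi * I) := by
      push_cast
      ring
    rw [h1, Complex.exp_add (z + Real.pi * I), Complex.exp_int_mul_two_pi_mul_I, Complex.exp_add,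
      Complex.exp_pi_mul_I]
    ring
  rw [G, P, h]
  ring

theorem P_real (x : ℝ) : P x = ((pp x - LL : ℝ) : ℂ) := by
  have h1 : (hh (-Complex.exp (x : ℂ))).im = 0 := by
    have := hh_real (-Real.exp x)
    push_cast at this
    exact this
  apply Complex.ext
  · simp [P, pp]
  · simp [P, h1]

theorem norm_P_real_le (x : ℝ) : ‖P x‖ ≤ Real.exp (-x) := by
  rw [P_real, Complex.norm_real, Real.norm_eq_abs, abs_le]
  have h1 := pp_le x
  have h2 := LL_le x
  constructor <;> linarith

end Pool.Agent.H640R3.EG
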