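import Pool.Agent.H640R3.EG.Summ

set_option autoImplicit false

namespace Pool.Agent.H640R3.EG

open Complex Filter Topology Set MeasureTheory

/-- the reciprocal of the function -/
noncomputable def F (z : ℂ) : ℂ := (G z) ^ 2 * Complex.exp (-Complex.exp z)

theorem F_diff : Differentiable ℂ F := by
  intro z
  exact ((G_diff z).pow 2).mul ((Complex.hasDerivAt_exp z).neg.cexp).differentiableAt

theorem F_ne {z : ℂ} (h : G z ≠ 0) : F z ≠ 0 :=
  mul_ne_zero (pow_ne_zero 2 h) (Complex.exp_ne_zero _)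

theorem F_inv (z : ℂ) : (F z)⁻¹ = Complex.exp (Complex.exp z) / (G z) ^ 2 := by
  rw [F, mul_inv, ← Complex.exp_neg, neg_neg, mul_comm, div_eq_mul_inv]

theorem log_F_low {x y : ℝ} (h0 : R0 ≤ Real.exp x) (h60 : 60 ≤ Real.exp x) (hy0 : 0 ≤ y)
    (hy : y ≤ 1 / 2) : 4 / 5 * Real.exp x - 2 * x - 2 ≤ Real.log ‖F ((x : ℂ) + y * I)‖ := by
  set R := Real.exp x with hR
  have hRpos : 0 < R := Real.exp_pos x
  have hpi := Real.pi_gt_three
  have hpi' := Real.pi_lt_d2
  have hcosy : 4 / 5 ≤ Real.cos y := by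
    have := Real.one_sub_sq_div_two_le_cos (x := y)
    nlinarith
  have hv : |y - Real.pi| ≤ Real.pi := by
    rw [abs_le]; constructor <;> linarith
  have hmain := main_est (x := x) (v := y - Real.pi) h0 hv
  have hB := norm_B x (y - Real.pi)
  rw [← hB, ← hR] at hmain
  rw [Real.cos_sub_pi, ← hR] at hB
  have hB' : ‖B (x + (y - Real.pi : ℝ) * I)‖ = Real.exp (R * Real.cos y) / R := by
    rw [hB]; congr 2; ring
  set z : ℂ := (x : ℂ) + y * I with hz
  set w : ℂ := (x : ℂ) + (y - Real.pi : ℝ) * I with hw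
  have hzw : z = w + ((2 * ((0 : ℤ) : ℝ) + 1) * Real.pi : ℝ) * I := by
    rw [hz, hw]; push_cast; ring
  have hG : G z = ((2 * ((0 : ℤ) : ℝ) + 1) * Real.pi : ℝ) * I + P w := by
    rw [hzw, G_eq]
  set ρ := ‖B w‖ with hρ
  have h6 : 6 / R ≤ 1 / 10 := by
    rw [div_le_div_iff₀ hRpos (by norm_num)]
    linarith
  have hρ19 : 19 ≤ ρ := by
    rw [hB', le_div_iff₀ hRpos]
    have h1 : 4 / 5 * R ≤ R * Real.cos y := by nlinarith
    have h2 := Real.quadratic_le_exp_of_nonneg (x := 4 / 5 * R) (by positivity)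
    have h3 := Real.exp_le_exp.2 h1
    nlinarith
  have hPlow : ρ - (1 / 10 + ρ / 10) ≤ ‖P w‖ := by
    have : ‖B w‖ ≤ ‖P w + B w‖ + ‖P w‖ := by
      have := norm_sub_le (P w + B w) (P w)
      rwa [add_sub_cancel_left] at this
    linarith
  have hGlow : ρ / 2 ≤ ‖G z‖ := by
    have h1 : ‖P w‖ ≤ ‖G z‖ + Real.pi := by
      have h2 : P w = G z - ((2 * ((0 : ℤ) : ℝ) + 1) * Real.pi : ℝ) * I := by rw [hG]; ring
      have h3 : ‖(((2 * ((0 : ℤ) : ℝ) + 1) * Real.pi : ℝ) : ℂ) * I‖ = Real.pi := by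
        rw [norm_mul, Complex.norm_I, mul_one, Complex.norm_real, Real.norm_eq_abs]
        norm_num
        exact Real.pi_pos.le
      calc ‖P w‖ = ‖G z - ((2 * ((0 : ℤ) : ℝ) + 1) * Real.pi : ℝ) * I‖ := by rw [← h2]
        _ ≤ ‖G z‖ + ‖(((2 * ((0 : ℤ) : ℝ) + 1) * Real.pi : ℝ) : ℂ) * I‖ := norm_sub_le _ _
        _ = _ := by rw [h3]
    linarith
  have hexp : ‖Complex.exp (-Complex.exp z)‖ = Real.exp (-(R * Real.cos y)) := by
    rw [Complex.norm_exp, Complex.neg_re, Complex.exp_re, hz]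
    simp [hR]
  have hFlow : Real.exp (R * Real.cos y) / (4 * R ^ 2) ≤ ‖F z‖ := by
    rw [F, norm_mul, norm_pow, hexp]
    have h1 : (ρ / 2) ^ 2 ≤ ‖G z‖ ^ 2 := pow_le_pow_left₀ (by linarith) hGlow 2
    have h2 := mul_le_mul_of_nonneg_right h1 (Real.exp_pos (-(R * Real.cos y))).le
    refine le_trans (le_of_eq ?_) h2
    rw [hB', Real.exp_neg]
    field_simp
    norm_num
  have hlog := Real.log_le_log (by positivity) hFlow
  refine le_trans ?_ hlog
  rw [Real.log_div (Real.exp_pos _).ne' (by positivity), Real.log_exp,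
    Real.log_mul (by norm_num) (by positivity), Real.log_pow, hR, Real.log_exp, ← hR]
  have h4 : Real.log 4 ≤ 2 := by
    have : (4 : ℝ) = 2 ^ 2 := by norm_num
    rw [this, Real.log_pow]
    have := Real.log_two_lt_d9
    push_cast
    linarith
  push_cast
  nlinarith

theorem prox_low {r : ℝ} (hr : 1 ≤ r) (h0 : R0 ≤ Real.exp (r - 1)) (h60 : 60 ≤ Real.exp (r - 1)) :
    (1 / (4 * Real.pi * r)) * (4 / 5 * Real.exp (r - 1) - 2 * r - 2) ≤
      ValueDistribution.proximity F ⊤ r := by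
  have hpi := Real.pi_gt_three
  rw [ValueDistribution.proximity_top, Real.circleAverage_def]
  have hcont : Continuous fun θ : ℝ => Real.posLog ‖F (circleMap 0 r θ)‖ := by
    apply Real.continuous_posLog.comp
    exact (F_diff.continuous.comp (continuous_circleMap 0 r)).norm
  have hnn : ∀ θ : ℝ, 0 ≤ Real.posLog ‖F (circleMap 0 r θ)‖ := fun θ => Real.posLog_nonneg
  have hr0 : 0 < r := by linarith
  set δ := 1 / (2 * r) with hδ
  have hδ0 : 0 < δ := by positivity
  have hδ1 : δ ≤ 1 / 2 := by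
    rw [hδ, div_le_div_iff₀ (by positivity) (by norm_num)]
    linarith
  have hrδ : r * δ = 1 / 2 := by rw [hδ]; field_simp
  have h1 : ∫ θ in (0 : ℝ)..δ, Real.posLog ‖F (circleMap 0 r θ)‖ ≤
      ∫ θ in (0 : ℝ)..(2 * Real.pi), Real.posLog ‖F (circleMap 0 r θ)‖ := by
    apply intervalIntegral.integral_mono_interval (le_refl 0) hδ0.le (by linarith)
    · exact Filter.Eventually.of_forall fun θ => hnn θ
    · exact hcont.intervalIntegrable _ _
  have h2 : ∫ θ in (0 : ℝ)..δ, (4 / 5 * Real.exp (r - 1) - 2 * r - 2) ≤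
      ∫ θ in (0 : ℝ)..δ, Real.posLog ‖F (circleMap 0 r θ)‖ := by
    apply intervalIntegral.integral_mono_on hδ0.le (by simp) (hcont.intervalIntegrable _ _)
    intro θ hθ
    have hθ0 := hθ.1
    have hθ1 := hθ.2
    have hc : circleMap 0 r θ = ((r * Real.cos θ : ℝ) : ℂ) + ((r * Real.sin θ : ℝ) : ℂ) * I := by
      rw [circleMap, zero_add, Complex.exp_mul_I]
      push_cast
      ring
    have hcos := Real.one_sub_sq_div_two_le_cos (x := θ)
    have hcos1 := Real.cos_le_one θ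
    have hrθ : r * θ ≤ 1 / 2 := by
      rw [← hrδ]
      exact mul_le_mul_of_nonneg_left hθ1 hr0.le
    have hx1 : r - 1 ≤ r * Real.cos θ := by nlinarith
    have hx2 : r * Real.cos θ ≤ r := by nlinarith
    have hsin0 : 0 ≤ Real.sin θ := Real.sin_nonneg_of_nonneg_of_le_pi hθ0 (by linarith)
    have hsin : Real.sin θ ≤ θ := Real.sin_le hθ0
    have hex : Real.exp (r - 1) ≤ Real.exp (r * Real.cos θ) := Real.exp_le_exp.2 hx1
    have h3 := log_F_low (x := r * Real.cos θ) (y := r * Real.sin θ) (h0.trans hex) (h60.trans hex)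
      (mul_nonneg hr0.le hsin0) ((mul_le_mul_of_nonneg_left hsin hr0.le).trans hrθ)
    rw [hc]
    refine le_trans ?_ (le_max_right _ _)
    linarith
  rw [intervalIntegral.integral_const, smul_eq_mul, sub_zero] at h2
  rw [smul_eq_mul]
  have h3 : (1 / (4 * Real.pi * r)) * (4 / 5 * Real.exp (r - 1) - 2 * r - 2) =
      (2 * Real.pi)⁻¹ * (δ * (4 / 5 * Real.exp (r - 1) - 2 * r - 2)) := by
    rw [hδ]
    field_simp
    ring
  rw [h3]
  exact mul_le_mul_of_nonneg_left (h2.trans h1) (by positivity)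

theorem codis : {z : ℂ | G z ≠ 0} ∈ codiscrete ℂ := by
  rw [mem_codiscrete]
  intro z
  rw [Filter.disjoint_principal_right]
  filter_upwards [zeros_isolated z] with w hw
  simpa using hw

theorem growth {f : ℂ → ℂ} (hf : ∀ z, G z ≠ 0 → f z = (F z)⁻¹) (ρ R : ℝ) :
    ∃ r > R, r ^ ρ < ValueDistribution.characteristic f ⊤ r := by
  have hmer : Meromorphic F := fun z => (F_diff.analyticAt z).meromorphicAt
  set C0 : ℝ := max |Real.log ‖F 0‖| |Real.log ‖meromorphicTrailingCoeffAt F 0‖| with hC0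
  have hcong : f =ᶠ[codiscrete ℂ] F⁻¹ := by
    filter_upwards [codis] with z hz
    rw [hf z hz]
    rfl
  have hlow : ∀ r : ℝ, 1 ≤ r → ValueDistribution.proximity F ⊤ r - C0 ≤
      ValueDistribution.characteristic f ⊤ r := by
    intro r hr
    rw [ValueDistribution.characteristic_congr_codiscrete hcong (by linarith)]
    have h1 := ValueDistribution.characteristic_sub_characteristic_inv_le (R := r) hmer
    rw [← hC0] at h1
    have h2 := (abs_le.1 h1).2
    have h3 : ValueDistribution.characteristic F ⊤ r =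
        ValueDistribution.proximity F ⊤ r + ValueDistribution.logCounting F ⊤ r := rfl
    have h4 := ValueDistribution.logCounting_nonneg (f := F) (e := ⊤) hr
    linarith
  have hpi := Real.pi_gt_three
  have hasym : ∀ᶠ r : ℝ in atTop, (4 * Real.pi) * r ^ (ρ + 1) + (4 * Real.pi * C0 + 2) * r ^ (1 : ℝ) + 2 * r ^ (0 : ℝ) ≤
      1 / 4 * Real.exp r := by
    have e1 := ((isLittleO_rpow_exp_atTop (ρ + 1)).const_mul_left (4 * Real.pi))
    have e2 := ((isLittleO_rpow_exp_atTop 1).const_mul_left (4 * Real.pi * C0 + 2))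
    have e3 := ((isLittleO_rpow_exp_atTop 0).const_mul_left 2)
    have e4 := ((e1.add e2).add e3).bound (by norm_num : (0 : ℝ) < 1 / 4)
    filter_upwards [e4] with r hr
    rw [Real.norm_of_nonneg (Real.exp_pos r).le] at hr
    exact (le_abs_self _).trans hr
  have hsh : Tendsto (fun r : ℝ => Real.exp (r - 1)) atTop atTop :=
    Real.tendsto_exp_atTop.comp (tendsto_atTop_add_const_right _ _ tendsto_id)
  obtain ⟨r, h1, h2, h3, h4, h5⟩ := (hasym.and ((eventually_gt_atTop (max R 1)).and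
    ((hsh.eventually_ge_atTop R0).and ((hsh.eventually_ge_atTop 60).and (eventually_gt_atTop 0))))).exists
  have hr1 : 1 ≤ r := ((le_max_right R 1).trans_lt h2).le
  refine ⟨r, (le_max_left R 1).trans_lt h2, lt_of_lt_of_le ?_ (hlow r hr1)⟩
  have h6 := prox_low hr1 h3 h4
  rw [Real.rpow_one, Real.rpow_zero, Real.rpow_add h5, Real.rpow_one] at h1
  have h7 : 4 * Real.pi * r * (r ^ ρ + C0) < 4 / 5 * Real.exp (r - 1) - 2 * r - 2 := by
    have h8 : Real.exp r = Real.exp (r - 1) * Real.exp 1 := by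
      rw [← Real.exp_add]; congr 1; ring
    have h9 := Real.exp_one_lt_d9
    have h10 := Real.exp_pos (r - 1)
    have h11 : 1 / 4 * Real.exp r < 4 / 5 * Real.exp (r - 1) := by
      rw [h8]; nlinarith
    linarith
  have h12 : r ^ ρ + C0 < (1 / (4 * Real.pi * r)) * (4 / 5 * Real.exp (r - 1) - 2 * r - 2) := by
    rw [one_div, ← div_eq_inv_mul, lt_div_iff₀ (by positivity)]
    linarith
  linarith

theorem order_le {f : ℂ → ℂ} (hf : ∀ z, G z ≠ 0 → f z = (F z)⁻¹) (z : ℂ) :
    ¬ 0 < meromorphicOrderAt f z := by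
  have h1 : f =ᶠ[𝓝[≠] z] F⁻¹ := by
    filter_upwards [zeros_isolated z] with w hw
    rw [hf w hw]
    rfl
  rw [meromorphicOrderAt_congr h1, meromorphicOrderAt_inv]
  have h2 : 0 ≤ meromorphicOrderAt F z := (F_diff.analyticAt z).meromorphicOrderAt_nonneg
  have h3 : meromorphicOrderAt F z ≠ ⊤ := by
    rw [meromorphicOrderAt_ne_top_iff_eventually_ne_zero (F_diff.analyticAt z).meromorphicAt]
    filter_upwards [zeros_isolated z] with w hw
    exact F_ne hw
  obtain ⟨n, hn⟩ := WithTop.ne_top_iff_exists.1 h3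
  rw [← hn] at h2 ⊢
  have h4 : (0 : ℤ) ≤ n := by exact_mod_cast h2
  have h5 : -(n : WithTop ℤ) = ((-n : ℤ) : WithTop ℤ) := rfl
  rw [h5]
  intro h6
  have h7 : (0 : ℤ) < -n := by exact_mod_cast h6
  omega

end Pool.Agent.H640R3.EG
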