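import Pool.Agent.H640R3.EG.Lim
import Pool.Agent.H640R3.EG.Growth

set_option autoImplicit false

namespace Pool.Agent.H640R3.EG

open Complex Filter Topology Set Function

theorem ZZ_countable : Countable ZZ := by
  have h1 : (univ : Set ZZ) = ⋃ n : ℕ, {t : ZZ | ‖(t : ℂ)‖ ≤ n} := by
    ext t
    simp only [mem_univ, true_iff, mem_iUnion]
    obtain ⟨n, hn⟩ := exists_nat_ge ‖(t : ℂ)‖
    exact ⟨n, hn⟩
  have h2 : (univ : Set ZZ).Countable := by
    rw [h1]
    exact Set.countable_iUnion fun n => (ZZ_finite_ball n).countable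
  exact Set.countable_univ_iff.1 h2

theorem assembled : ∃ (c t : ℕ → ℂ), (∀ n, t n ≠ 0) ∧ Tendsto t atTop (cocompact ℂ) ∧
    Summable (fun n => ‖c n‖ / ‖t n‖ ^ 2) ∧
    ∀ z, G z ≠ 0 → ∑' n, c n / (z - t n) ^ 2 = (F z)⁻¹ := by
  classical
  have := ZZ_countable
  obtain ⟨e, he⟩ := Countable.exists_injective_nat ZZ
  set t : ℕ → ℂ := Function.extend e (fun s : ZZ => (s : ℂ)) (fun n => (n : ℂ) + 1) with ht
  set c : ℕ → ℂ := Function.extend e (fun s : ZZ => (Complex.exp (Complex.exp (s : ℂ)))⁻¹) (fun _ => 0)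
    with hc
  have ht1 : ∀ s, t (e s) = s := fun s => he.extend_apply _ _ _
  have ht2 : ∀ n, n ∉ range e → t n = (n : ℂ) + 1 := fun n hn => Function.extend_apply' _ _ _ hn
  have hc1 : ∀ s, c (e s) = (Complex.exp (Complex.exp (s : ℂ)))⁻¹ := fun s => he.extend_apply _ _ _
  have hc2 : ∀ n, n ∉ range e → c n = 0 := fun n hn => Function.extend_apply' _ _ _ hn
  refine ⟨c, t, ?_, ?_, ?_, ?_⟩
  · intro n
    by_cases hn : n ∈ range e
    · obtain ⟨s, rfl⟩ := hn
      rw [ht1]
      exact ZZ_ne_zero s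
    · rw [ht2 n hn]
      exact_mod_cast Nat.succ_ne_zero n
  · rw [← Nat.cofinite_eq_atTop, ← Metric.cobounded_eq_cocompact, ← tendsto_norm_atTop_iff_cobounded]
    rw [tendsto_atTop]
    intro b
    have hfin : {n : ℕ | ¬ b ≤ ‖t n‖} ⊆ e '' {s : ZZ | ‖(s : ℂ)‖ ≤ b} ∪ {n : ℕ | (n : ℝ) ≤ b} := by
      intro n hn
      have hn' : ‖t n‖ < b := not_le.1 hn
      by_cases hr : n ∈ range e
      · left
        obtain ⟨s, rfl⟩ := hr
        rw [ht1] at hn'
        exact ⟨s, hn'.le, rfl⟩
      · right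
        rw [ht2 n hr] at hn'
        have h1 : ‖(n : ℂ) + 1‖ = n + 1 := by
          have : (n : ℂ) + 1 = ((n + 1 : ℕ) : ℂ) := by push_cast; ring
          rw [this, Complex.norm_natCast]
          push_cast
          ring
        rw [h1] at hn'
        show (n : ℝ) ≤ b
        linarith
    have hfin2 : {n : ℕ | (n : ℝ) ≤ b}.Finite := by
      apply (Set.finite_le_nat ⌊b⌋₊).subset
      intro n hn
      have hn' : (n : ℝ) ≤ b := hn
      exact Nat.le_floor hn'
    exact (((ZZ_finite_ball b).image e).union hfin2).subset hfin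
  · have h1 : ∀ n, n ∉ range e → (fun n => ‖c n‖ / ‖t n‖ ^ 2) n = 0 := by
      intro n hn
      simp only [hc2 n hn, norm_zero, zero_div]
    rw [← he.summable_iff h1]
    have h2 : ((fun n => ‖c n‖ / ‖t n‖ ^ 2) ∘ e) = fun s : ZZ => ff s := by
      funext s
      simp only [Function.comp_apply, hc1, ht1, ff, Complex.exp_neg]
    rw [h2]
    exact summable_zeros
  · intro z hz
    rw [F_inv, ← tsum_eq hz]
    have h1 : support (fun n => c n / (z - t n) ^ 2) ⊆ range e := by
      intro n hn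
      by_contra hcon
      apply hn
      simp only [hc2 n hcon, zero_div]
    rw [← he.tsum_eq h1]
    apply tsum_congr
    intro s
    rw [hc1, ht1]

end Pool.Agent.H640R3.EG
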