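import Pool.Agent.H810R2.CSd

set_option autoImplicit false

namespace Pool.Agent.H640R3.EG

open Complex Filter Topology Set MeasureTheory Pool.Agent.H810R2.CSd

/-- boundary of a rectangle -/
def bd (x₀ x₁ y₀ y₁ : ℝ) : Set ℂ :=
  {z | z.re ∈ Icc x₀ x₁ ∧ z.im ∈ Icc y₀ y₁ ∧ (z.re = x₀ ∨ z.re = x₁ ∨ z.im = y₀ ∨ z.im = y₁)}

/-- open rectangle -/
def op (x₀ x₁ y₀ y₁ : ℝ) : Set ℂ := {z | z.re ∈ Ioo x₀ x₁ ∧ z.im ∈ Ioo y₀ y₁}

variable {x₀ x₁ y₀ y₁ : ℝ}

theorem mem_bd_h {y : ℝ} (hy0 : y₀ ≤ y₁) (hy : y = y₀ ∨ y = y₁) {x : ℝ} (hx : x ∈ Icc x₀ x₁) :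
    ((x : ℂ) + y * I) ∈ bd x₀ x₁ y₀ y₁ := by
  have h1 : ((x : ℂ) + y * I).re = x := by simp
  have h2 : ((x : ℂ) + y * I).im = y := by simp
  refine ⟨by rw [h1]; exact hx, ?_, ?_⟩
  · rw [h2]
    rcases hy with rfl | rfl
    · exact ⟨le_refl _, hy0⟩
    · exact ⟨hy0, le_refl _⟩
  · rw [h2]
    tauto

theorem mem_bd_v {x : ℝ} (hx0 : x₀ ≤ x₁) (hx : x = x₀ ∨ x = x₁) {y : ℝ} (hy : y ∈ Icc y₀ y₁) :
    ((x : ℂ) + y * I) ∈ bd x₀ x₁ y₀ y₁ := by
  have h1 : ((x : ℂ) + y * I).re = x := by simp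
  have h2 : ((x : ℂ) + y * I).im = y := by simp
  refine ⟨?_, by rw [h2]; exact hy, ?_⟩
  · rw [h1]
    rcases hx with rfl | rfl
    · exact ⟨le_refl _, hx0⟩
    · exact ⟨hx0, le_refl _⟩
  · rw [h1]
    tauto

theorem rect_congr {f g : ℂ → ℂ} (hx : x₀ ≤ x₁) (hy : y₀ ≤ y₁)
    (h : ∀ z ∈ bd x₀ x₁ y₀ y₁, f z = g z) : rect x₀ x₁ y₀ y₁ f = rect x₀ x₁ y₀ y₁ g := by
  unfold rect
  have h1 : ∀ y, y = y₀ ∨ y = y₁ → (∫ x in x₀..x₁, f (x + (y : ℝ) * I)) =
      ∫ x in x₀..x₁, g (x + (y : ℝ) * I) := by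
    intro y hy'
    apply intervalIntegral.integral_congr
    intro x hx'
    rw [uIcc_of_le hx] at hx'
    exact h _ (mem_bd_h hy hy' hx')
  have h2 : ∀ x, x = x₀ ∨ x = x₁ → (∫ y in y₀..y₁, f ((x : ℝ) + y * I)) =
      ∫ y in y₀..y₁, g ((x : ℝ) + y * I) := by
    intro x hx'
    apply intervalIntegral.integral_congr
    intro y hy'
    rw [uIcc_of_le hy] at hy'
    exact h _ (mem_bd_v hx hx' hy')
  rw [h1 _ (Or.inl rfl), h1 _ (Or.inr rfl), h2 _ (Or.inl rfl), h2 _ (Or.inr rfl)]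

theorem int_h {f : ℂ → ℂ} (hx : x₀ ≤ x₁) (hy : y₀ ≤ y₁)
    (hf : ContinuousOn f (bd x₀ x₁ y₀ y₁)) {y : ℝ} (hy' : y = y₀ ∨ y = y₁) :
    IntervalIntegrable (fun x : ℝ => f (x + (y : ℝ) * I)) volume x₀ x₁ := by
  apply ContinuousOn.intervalIntegrable
  rw [uIcc_of_le hx]
  exact hf.comp (by fun_prop) (fun x hx' => mem_bd_h hy hy' hx')

theorem int_v {f : ℂ → ℂ} (hx : x₀ ≤ x₁) (hy : y₀ ≤ y₁)
    (hf : ContinuousOn f (bd x₀ x₁ y₀ y₁)) {x : ℝ} (hx' : x = x₀ ∨ x = x₁) :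
    IntervalIntegrable (fun y : ℝ => f ((x : ℝ) + y * I)) volume y₀ y₁ := by
  apply ContinuousOn.intervalIntegrable
  rw [uIcc_of_le hy]
  exact hf.comp (by fun_prop) (fun y hy' => mem_bd_v hx hx' hy')

theorem rect_add {f g : ℂ → ℂ} (hx : x₀ ≤ x₁) (hy : y₀ ≤ y₁)
    (hf : ContinuousOn f (bd x₀ x₁ y₀ y₁)) (hg : ContinuousOn g (bd x₀ x₁ y₀ y₁)) :
    rect x₀ x₁ y₀ y₁ (fun z => f z + g z) = rect x₀ x₁ y₀ y₁ f + rect x₀ x₁ y₀ y₁ g := by
  unfold rect
  rw [intervalIntegral.integral_add (int_h hx hy hf (Or.inl rfl)) (int_h hx hy hg (Or.inl rfl)),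
    intervalIntegral.integral_add (int_h hx hy hf (Or.inr rfl)) (int_h hx hy hg (Or.inr rfl)),
    intervalIntegral.integral_add (int_v hx hy hf (Or.inl rfl)) (int_v hx hy hg (Or.inl rfl)),
    intervalIntegral.integral_add (int_v hx hy hf (Or.inr rfl)) (int_v hx hy hg (Or.inr rfl))]
  simp only [smul_eq_mul]
  ring

theorem rect_const_mul (c : ℂ) (f : ℂ → ℂ) :
    rect x₀ x₁ y₀ y₁ (fun z => c * f z) = c * rect x₀ x₁ y₀ y₁ f := by
  unfold rect
  simp only [intervalIntegral.integral_const_mul, smul_eq_mul]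
  ring

theorem rect_zero_fun : rect x₀ x₁ y₀ y₁ (fun _ => 0) = 0 := by
  simp [rect]

theorem rect_sum {ι : Type*} [DecidableEq ι] (S : Finset ι) (f : ι → ℂ → ℂ) (hx : x₀ ≤ x₁) (hy : y₀ ≤ y₁)
    (hf : ∀ i ∈ S, ContinuousOn (f i) (bd x₀ x₁ y₀ y₁)) :
    rect x₀ x₁ y₀ y₁ (fun z => ∑ i ∈ S, f i z) = ∑ i ∈ S, rect x₀ x₁ y₀ y₁ (f i) := by
  induction S using Finset.induction_on with
  | empty => simp [rect_zero_fun]
  | insert a s ha ih =>
    have h1 : (fun z => ∑ i ∈ insert a s, f i z) = fun z => f a z + ∑ i ∈ s, f i z := by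
      funext z
      rw [Finset.sum_insert ha]
    rw [h1, rect_add hx hy (hf a (Finset.mem_insert_self a s))
      (continuousOn_finsetSum _ fun i hi => hf i (Finset.mem_insert_of_mem hi)),
      Finset.sum_insert ha, ih fun i hi => hf i (Finset.mem_insert_of_mem hi)]

theorem inv_sub_diff {w z : ℂ} (h : w - z ≠ 0) : DifferentiableAt ℂ (fun ζ => (ζ - z)⁻¹) w := by
  have : DifferentiableAt ℂ (fun ζ : ℂ => ζ - z) w := by fun_prop
  exact this.inv h

theorem op_bd {z : ℂ} (h : z ∈ bd x₀ x₁ y₀ y₁) (h' : z ∈ op x₀ x₁ y₀ y₁) : False := by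
  obtain ⟨_, _, h3⟩ := h
  obtain ⟨⟨h4, h5⟩, h6, h7⟩ := h'
  rcases h3 with h | h | h | h <;> linarith

theorem rect_removable {g : ℂ → ℂ} (hx : x₀ < x₁) (hy : y₀ < y₁) (S : Finset ℂ)
    (hS : ∀ s ∈ S, s ∈ op x₀ x₁ y₀ y₁)
    (hd : ∀ z, z.re ∈ Icc x₀ x₁ → z.im ∈ Icc y₀ y₁ → z ∉ S → DifferentiableAt ℂ g z)
    (hl : ∀ s ∈ S, ∃ L, Tendsto g (𝓝[≠] s) (𝓝 L)) :
    rect x₀ x₁ y₀ y₁ g = 0 := by
  classical
  set g' : ℂ → ℂ := fun z => if z ∈ S then limUnder (𝓝[≠] z) g else g z with hg'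
  have heq : ∀ z, z ∉ S → g' =ᶠ[𝓝 z] g := by
    intro z hz
    have : IsOpen ((S : Set ℂ)ᶜ) := S.finite_toSet.isClosed.isOpen_compl
    filter_upwards [this.mem_nhds (show z ∈ (S : Set ℂ)ᶜ by simpa using hz)] with w hw
    have : w ∉ S := by simpa using hw
    simp [hg', this]
  have heq2 : ∀ z, g' =ᶠ[𝓝[≠] z] g := by
    intro z
    have h1 : IsOpen (((S.erase z : Finset ℂ) : Set ℂ)ᶜ) :=
      (S.erase z).finite_toSet.isClosed.isOpen_compl
    have h2 : ((S.erase z : Finset ℂ) : Set ℂ)ᶜ ∈ 𝓝 z := h1.mem_nhds (by simp)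
    filter_upwards [mem_nhdsWithin_of_mem_nhds h2, self_mem_nhdsWithin] with w hw hw2
    have : w ∉ S := by
      intro hwS
      apply hw
      simp only [Finset.coe_erase, Set.mem_sdiff, Finset.mem_coe, mem_singleton_iff]
      exact ⟨hwS, hw2⟩
    simp [hg', this]
  have hc : ∀ z, z.re ∈ Icc x₀ x₁ → z.im ∈ Icc y₀ y₁ → ContinuousAt g' z := by
    intro z h1 h2
    by_cases hz : z ∈ S
    · obtain ⟨L, hL⟩ := hl z hz
      rw [continuousAt_iff_punctured_nhds]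
      have h3 : g' z = L := by
        simp only [hg', hz, if_true]
        exact hL.limUnder_eq
      rw [h3]
      exact (tendsto_congr' (heq2 z)).2 hL
    · exact (continuousAt_congr (heq z hz)).2 (hd z h1 h2 hz).continuousAt
  have h0 : rect x₀ x₁ y₀ y₁ g = rect x₀ x₁ y₀ y₁ g' := by
    apply rect_congr hx.le hy.le
    intro z hz
    have : z ∉ S := fun h => op_bd hz (hS z h)
    simp [hg', this]
  rw [h0]
  have := Complex.integral_boundary_rect_eq_zero_of_differentiable_on_off_countable g'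
    (⟨x₀, y₀⟩ : ℂ) (⟨x₁, y₁⟩ : ℂ) (S : Set ℂ) S.countable_toSet
    (by
      intro z hz
      apply (hc z _ _).continuousWithinAt
      · have := hz.1
        rwa [mem_preimage, uIcc_of_le hx.le] at this
      · have := hz.2
        rwa [mem_preimage, uIcc_of_le hy.le] at this)
    (by
      intro z hz
      have h1 := hz.1.1
      have h2 := hz.1.2
      rw [mem_preimage] at h1 h2
      simp only [min_eq_left hx.le, max_eq_right hx.le, min_eq_left hy.le, max_eq_right hy.le] at h1 h2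
      have h3 : z ∉ S := by simpa using hz.2
      exact ((heq z h3).differentiableAt_iff).2
        (hd z (Ioo_subset_Icc_self h1) (Ioo_subset_Icc_self h2) h3))
  exact this

/-- Residue theorem for simple poles in a rectangle. -/
theorem rect_simple {g : ℂ → ℂ} (hx : x₀ < x₁) (hy : y₀ < y₁) (S : Finset ℂ) (r : ℂ → ℂ)
    (hS : ∀ s ∈ S, s ∈ op x₀ x₁ y₀ y₁)
    (hd : ∀ z, z.re ∈ Icc x₀ x₁ → z.im ∈ Icc y₀ y₁ → z ∉ S → DifferentiableAt ℂ g z)
    (hl : ∀ s ∈ S, ∃ L, Tendsto (fun z => g z - r s * (z - s)⁻¹) (𝓝[≠] s) (𝓝 L)) :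
    rect x₀ x₁ y₀ y₁ g = 2 * Real.pi * I * ∑ s ∈ S, r s := by
  classical
  have hcb : ∀ s ∈ S, ContinuousOn (fun z => r s * (z - s)⁻¹) (bd x₀ x₁ y₀ y₁) := by
    intro s hs
    apply ContinuousOn.mul continuousOn_const
    apply ContinuousOn.inv₀ (by fun_prop)
    intro z hz h
    rw [sub_eq_zero] at h
    rw [h] at hz
    exact op_bd hz (hS s hs)
  have hgb : ContinuousOn g (bd x₀ x₁ y₀ y₁) := by
    intro z hz
    refine (hd z hz.1 hz.2.1 ?_).continuousAt.continuousWithinAt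
    exact fun h => op_bd hz (hS z h)
  have h0 : rect x₀ x₁ y₀ y₁ (fun z => g z + (-1) * ∑ s ∈ S, r s * (z - s)⁻¹) = 0 := by
    apply rect_removable hx hy S hS
    · intro z h1 h2 h3
      apply (hd z h1 h2 h3).add
      apply DifferentiableAt.const_mul
      apply DifferentiableAt.fun_sum
      intro s hs
      apply DifferentiableAt.const_mul
      apply DifferentiableAt.inv (by fun_prop)
      intro h
      rw [sub_eq_zero] at h
      rw [h] at h3
      exact h3 hs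
    · intro s hs
      obtain ⟨L, hL⟩ := hl s hs
      have hc : Tendsto (fun z => (-1) * ∑ i ∈ S.erase s, r i * (z - i)⁻¹) (𝓝[≠] s)
          (𝓝 ((-1) * ∑ i ∈ S.erase s, r i * (s - i)⁻¹)) := by
        have : ContinuousAt (fun z => (-1) * ∑ i ∈ S.erase s, r i * (z - i)⁻¹) s := by
          apply ContinuousAt.mul continuousAt_const
          apply tendsto_finsetSum
          intro i hi
          apply ContinuousAt.mul continuousAt_const
          apply ContinuousAt.inv₀ (by fun_prop)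
          rw [sub_ne_zero]
          exact (Finset.ne_of_mem_erase hi).symm
        exact this.tendsto.mono_left nhdsWithin_le_nhds
      refine ⟨_, (hL.add hc).congr' ?_⟩
      filter_upwards [] with z
      rw [← Finset.add_sum_erase S (fun i => r i * (z - i)⁻¹) hs]
      ring
  have hsb : ContinuousOn (fun z => (-1) * ∑ s ∈ S, r s * (z - s)⁻¹) (bd x₀ x₁ y₀ y₁) :=
    ContinuousOn.mul continuousOn_const (continuousOn_finsetSum _ hcb)
  rw [rect_add (g := fun z => (-1) * ∑ s ∈ S, r s * (z - s)⁻¹) hx.le hy.le hgb hsb, rect_const_mul,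
    rect_sum S _ hx.le hy.le hcb] at h0
  have h1 : ∀ s ∈ S, rect x₀ x₁ y₀ y₁ (fun z => r s * (z - s)⁻¹) = 2 * Real.pi * I * r s := by
    intro s hs
    obtain ⟨⟨h4, h5⟩, h6, h7⟩ := hS s hs
    rw [rect_const_mul, rect_inv h4 h5 h6 h7]
    ring
  rw [Finset.sum_congr rfl h1, ← Finset.mul_sum] at h0
  linear_combination h0

/-- double pole -/
theorem rect_inv_sq (hx : x₀ < x₁) (hy : y₀ < y₁) {w : ℂ} (hw : w ∈ op x₀ x₁ y₀ y₁) :
    rect x₀ x₁ y₀ y₁ (fun z => ((z - w)⁻¹) ^ 2) = 0 := by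
  have hne : ∀ z ∈ bd x₀ x₁ y₀ y₁, z - w ≠ 0 := by
    intro z hz h
    rw [sub_eq_zero] at h
    rw [h] at hz
    exact op_bd hz hw
  have hF : ∀ z ∈ bd x₀ x₁ y₀ y₁, HasDerivAt (fun z => -(z - w)⁻¹) (((z - w)⁻¹) ^ 2) z := by
    intro z hz
    have h := (((hasDerivAt_id z).sub_const w).inv (hne z hz)).neg
    have e : -(-1 / (id z - w) ^ 2) = ((z - w)⁻¹) ^ 2 := by
      simp only [id]
      rw [inv_pow]
      ring
    rw [e] at h
    exact h
  have hcont : ContinuousOn (fun z => ((z - w)⁻¹) ^ 2) (bd x₀ x₁ y₀ y₁) := by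
    apply ContinuousOn.pow
    exact ContinuousOn.inv₀ (by fun_prop) hne
  have hH : ∀ y, y = y₀ ∨ y = y₁ → (∫ x in x₀..x₁, (fun z => ((z - w)⁻¹) ^ 2) ((x : ℂ) + (y : ℝ) * I)) =
      -((x₁ : ℂ) + y * I - w)⁻¹ - -((x₀ : ℂ) + y * I - w)⁻¹ := by
    intro y hy'
    apply intervalIntegral.integral_eq_sub_of_hasDerivAt
      (f := fun x : ℝ => -((x : ℂ) + y * I - w)⁻¹) ?_ (int_h hx.le hy.le hcont hy')
    intro x hx'
    rw [uIcc_of_le hx.le] at hx'
    have h1 : HasDerivAt (fun x : ℝ => (x : ℂ) + y * I) 1 x :=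
      (Complex.ofRealCLM.hasDerivAt (x := x)).add_const _
    have h2 := (hF _ (mem_bd_h hy.le hy' hx')).comp x h1
    rw [mul_one] at h2
    exact h2
  have hV : ∀ x, x = x₀ ∨ x = x₁ → I * (∫ y in y₀..y₁, (fun z => ((z - w)⁻¹) ^ 2) ((x : ℝ) + (y : ℂ) * I)) =
      -((x : ℂ) + y₁ * I - w)⁻¹ - -((x : ℂ) + y₀ * I - w)⁻¹ := by
    intro x hx'
    rw [← intervalIntegral.integral_const_mul]
    apply intervalIntegral.integral_eq_sub_of_hasDerivAt
      (f := fun y : ℝ => -((x : ℂ) + y * I - w)⁻¹) ?_ ((int_v hx.le hy.le hcont hx').const_mul I)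
    intro y hy'
    rw [uIcc_of_le hy.le] at hy'
    have h1 : HasDerivAt (fun y : ℝ => (x : ℂ) + y * I) (1 * I) y :=
      ((Complex.ofRealCLM.hasDerivAt (x := y)).mul_const I).const_add _
    have h2 := (hF _ (mem_bd_v hx.le hx' hy')).comp y h1
    rw [one_mul, mul_comm] at h2
    exact h2
  unfold rect
  simp only [smul_eq_mul]
  rw [hH _ (Or.inl rfl), hH _ (Or.inr rfl), hV _ (Or.inl rfl), hV _ (Or.inr rfl)]
  ring

/-- The residue identity for `1 / (G (ζ - z)^2)`, where `G` has simple zeros. -/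
theorem rect_main {G G' : ℂ → ℂ} (hG : ∀ z, HasDerivAt G (G' z) z) (hG' : ∀ z, G' z ≠ 0)
    (hx : x₀ < x₁) (hy : y₀ < y₁) (S : Finset ℂ)
    (hS : ∀ s ∈ S, s ∈ op x₀ x₁ y₀ y₁) (hS0 : ∀ s ∈ S, G s = 0)
    (hS1 : ∀ z, z.re ∈ Icc x₀ x₁ → z.im ∈ Icc y₀ y₁ → G z = 0 → z ∈ S)
    {z : ℂ} (hz : z ∈ op x₀ x₁ y₀ y₁) (hGz : G z ≠ 0) :
    rect x₀ x₁ y₀ y₁ (fun ζ => (G ζ)⁻¹ * ((ζ - z)⁻¹) ^ 2) =
      2 * Real.pi * I * (-(G' z / (G z) ^ 2) + ∑ t ∈ S, (G' t)⁻¹ / (z - t) ^ 2) := by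
  classical
  have hGd : Differentiable ℂ G := fun w => (hG w).differentiableAt
  have hzS : z ∉ S := fun h => hGz (hS0 z h)
  have hzt : ∀ t ∈ S, t ≠ z := fun t ht h => hzS (h ▸ ht)
  -- continuity facts on the boundary
  have hneb : ∀ ζ ∈ bd x₀ x₁ y₀ y₁, ζ - z ≠ 0 := by
    intro ζ hζ h
    rw [sub_eq_zero] at h
    rw [h] at hζ
    exact op_bd hζ hz
  have hGb : ∀ ζ ∈ bd x₀ x₁ y₀ y₁, G ζ ≠ 0 := by
    intro ζ hζ h
    exact op_bd hζ (hS _ (hS1 ζ hζ.1 hζ.2.1 h))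
  have hc1 : ContinuousOn (fun ζ => (G ζ)⁻¹ * ((ζ - z)⁻¹) ^ 2) (bd x₀ x₁ y₀ y₁) := by
    apply ContinuousOn.mul
    · exact ContinuousOn.inv₀ hGd.continuous.continuousOn hGb
    · exact (ContinuousOn.inv₀ (by fun_prop) hneb).pow 2
  have hc2 : ContinuousOn (fun ζ => -(G z)⁻¹ * ((ζ - z)⁻¹) ^ 2) (bd x₀ x₁ y₀ y₁) := by
    apply ContinuousOn.mul continuousOn_const
    exact (ContinuousOn.inv₀ (by fun_prop) hneb).pow 2
  -- apply the simple pole version
  set r : ℂ → ℂ := fun s => if s = z then -(G' z / (G z) ^ 2) else (G' s)⁻¹ / (z - s) ^ 2 with hr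
  have key := rect_simple (g := fun ζ => (G ζ)⁻¹ * ((ζ - z)⁻¹) ^ 2 + -(G z)⁻¹ * ((ζ - z)⁻¹) ^ 2)
    hx hy (insert z S) r
    (by
      intro s hs
      rcases Finset.mem_insert.1 hs with rfl | hs
      · exact hz
      · exact hS s hs)
    (by
      intro ζ h1 h2 h3
      rw [Finset.mem_insert, not_or] at h3
      have h4 : G ζ ≠ 0 := fun h => h3.2 (hS1 ζ h1 h2 h)
      have h5 : ζ - z ≠ 0 := sub_ne_zero.2 h3.1
      have h6 : DifferentiableAt ℂ (fun ζ => ((ζ - z)⁻¹) ^ 2) ζ :=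
        (inv_sub_diff h5).pow 2
      exact (((hGd ζ).inv h4).mul h6).add (h6.const_mul _))
    (by
      intro s hs
      rcases Finset.mem_insert.1 hs with rfl | hs
      · -- at z
        -- A = 1/G differentiable near s
        have hU : IsOpen {w : ℂ | G w ≠ 0} := isOpen_ne.preimage hGd.continuous
        have hAd : DifferentiableOn ℂ (fun w => (G w)⁻¹) {w : ℂ | G w ≠ 0} :=
          fun w hw => ((hGd w).inv hw).differentiableWithinAt
        have hUn : {w : ℂ | G w ≠ 0} ∈ 𝓝 s := hU.mem_nhds hGz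
        have hdA : HasDerivAt (fun w => (G w)⁻¹) (-(G' s / (G s) ^ 2)) s := by
          have := (hG s).inv hGz
          rwa [neg_div] at this
        have hD1 : DifferentiableOn ℂ (dslope (fun w => (G w)⁻¹) s) {w : ℂ | G w ≠ 0} :=
          (Complex.differentiableOn_dslope hUn).2 hAd
        have hD1s : DifferentiableAt ℂ (dslope (fun w => (G w)⁻¹) s) s := (hD1 s hGz).differentiableAt hUn
        refine ⟨deriv (dslope (fun w => (G w)⁻¹) s) s, ?_⟩
        have h1 := hasDerivAt_iff_tendsto_slope.1 hD1s.hasDerivAt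
        refine h1.congr' ?_
        filter_upwards [self_mem_nhdsWithin] with w hw
        have hw' : w ≠ s := hw
        have hws : w - s ≠ 0 := sub_ne_zero.2 hw'
        rw [slope_def_field, dslope_same, hdA.deriv, dslope_of_ne _ hw', slope_def_field]
        simp only [hr, if_true]
        field_simp
        ring
      · -- at zero t of G
        have hsz : s ≠ z := hzt s hs
        have hGs : G s = 0 := hS0 s hs
        have hH : Differentiable ℂ (dslope G s) := by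
          have := (Complex.differentiableOn_dslope (s := (univ : Set ℂ)) (c := s) univ_mem).2
            hGd.differentiableOn
          exact differentiableOn_univ.1 this
        have hHs : dslope G s s = G' s := by rw [dslope_same, (hG s).deriv]
        have hszn : s - z ≠ 0 := sub_ne_zero.2 hsz
        have hK : DifferentiableAt ℂ (fun ζ => (dslope G s ζ)⁻¹ * ((ζ - z)⁻¹) ^ 2) s := by
          apply DifferentiableAt.mul
          · apply (hH s).inv
            rw [hHs]; exact hG' s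
          · exact (inv_sub_diff hszn).pow 2
        have h1 := hasDerivAt_iff_tendsto_slope.1 hK.hasDerivAt
        have h2 : Tendsto (fun ζ => -(G z)⁻¹ * ((ζ - z)⁻¹) ^ 2) (𝓝[≠] s)
            (𝓝 (-(G z)⁻¹ * ((s - z)⁻¹) ^ 2)) := by
          have : ContinuousAt (fun ζ => -(G z)⁻¹ * ((ζ - z)⁻¹) ^ 2) s := by
            apply ContinuousAt.mul continuousAt_const
            exact (inv_sub_diff hszn).continuousAt.pow 2
          exact this.tendsto.mono_left nhdsWithin_le_nhds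
        refine ⟨_, (h1.add h2).congr' ?_⟩
        filter_upwards [self_mem_nhdsWithin] with w hw
        have hw' : w ≠ s := hw
        have hws : w - s ≠ 0 := sub_ne_zero.2 hw'
        rw [slope_def_field]
        have h3 : G w = (w - s) * dslope G s w := by
          have := sub_smul_dslope G s w
          rw [hGs, sub_zero, smul_eq_mul] at this
          exact this.symm
        rw [hHs, h3]
        simp only [hr, if_neg hsz]
        have h4 : ((z : ℂ) - s) ^ 2 = (s - z) ^ 2 := by ring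
        rw [h4, mul_inv, div_eq_mul_inv, div_eq_mul_inv, inv_pow, inv_pow]
        ring)
  rw [rect_add hx.le hy.le hc1 hc2, rect_const_mul, rect_inv_sq hx hy hz, mul_zero, add_zero,
    Finset.sum_insert hzS] at key
  rw [key]
  congr 1
  simp only [hr, if_true]
  congr 1
  apply Finset.sum_congr rfl
  intro t ht
  rw [if_neg (hzt t ht)]

end Pool.Agent.H640R3.EG
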