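import Pool.Agent.H640R3.EG.Summ
import Pool.Agent.H640R3.EG.Res

set_option autoImplicit false

namespace Pool.Agent.H640R3.EG

open Complex Filter Topology Set MeasureTheory Pool.Agent.H810R2.CSd

theorem norm_line_le {f : ℝ → ℂ} {a b D c : ℝ} (hD : 0 < D) (hab : a ≤ b)
    (hf : ∀ x ∈ Icc a b, ‖f x‖ ≤ 2 / (D ^ 2 + (x - c) ^ 2)) :
    ‖∫ x in a..b, f x‖ ≤ 2 * Real.pi / D := by
  have hpos : ∀ x : ℝ, 0 < D ^ 2 + (x - c) ^ 2 := fun x => by positivity
  have hcont : Continuous fun x : ℝ => 2 / (D ^ 2 + (x - c) ^ 2) := by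
    apply Continuous.div (by fun_prop) (by fun_prop)
    intro x
    exact (hpos x).ne'
  have h1 : ‖∫ x in a..b, f x‖ ≤ ∫ x in a..b, 2 / (D ^ 2 + (x - c) ^ 2) := by
    apply intervalIntegral.norm_integral_le_of_norm_le hab
    · filter_upwards [] with x hx
      exact hf x (Ioc_subset_Icc_self hx)
    · exact hcont.intervalIntegrable _ _
  refine h1.trans ?_
  have hder : ∀ x ∈ uIcc a b, HasDerivAt (fun x : ℝ => 2 / D * Real.arctan ((x - c) / D))
      (2 / (D ^ 2 + (x - c) ^ 2)) x := by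
    intro x _
    have h2 : HasDerivAt (fun x : ℝ => (x - c) / D) (1 / D) x :=
      ((hasDerivAt_id x).sub_const c).div_const D
    have h3 := (h2.arctan).const_mul (2 / D)
    have e : 2 / D * (1 / (1 + ((x - c) / D) ^ 2) * (1 / D)) = 2 / (D ^ 2 + (x - c) ^ 2) := by
      have h4 := (hpos x).ne'
      have h5 : (1 + ((x - c) / D) ^ 2) ≠ 0 := by positivity
      field_simp
    rw [e] at h3
    exact h3
  rw [intervalIntegral.integral_eq_sub_of_hasDerivAt hder (hcont.intervalIntegrable _ _)]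
  have h6 := Real.arctan_lt_pi_div_two ((b - c) / D)
  have h7 := Real.neg_pi_div_two_lt_arctan ((a - c) / D)
  have h8 : 2 / D * Real.arctan ((b - c) / D) - 2 / D * Real.arctan ((a - c) / D) =
      2 * (Real.arctan ((b - c) / D) - Real.arctan ((a - c) / D)) / D := by ring
  rw [h8]
  apply div_le_div_of_nonneg_right _ hD.le
  linarith

theorem rect_norm_le {x₀ x₁ y₀ y₁ : ℝ} {f : ℂ → ℂ} {z : ℂ} (hz : z ∈ op x₀ x₁ y₀ y₁)
    (hf : ∀ ζ ∈ bd x₀ x₁ y₀ y₁, ‖f ζ‖ ≤ 2 / ‖ζ - z‖ ^ 2) :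
    ‖rect x₀ x₁ y₀ y₁ f‖ ≤ 2 * Real.pi / (z.im - y₀) + 2 * Real.pi / (y₁ - z.im) +
      2 * Real.pi / (x₁ - z.re) + 2 * Real.pi / (z.re - x₀) := by
  obtain ⟨⟨h1, h2⟩, h3, h4⟩ := hz
  have hx : x₀ ≤ x₁ := by linarith
  have hy : y₀ ≤ y₁ := by linarith
  have hn : ∀ x y : ℝ, ‖((x : ℂ) + y * I) - z‖ ^ 2 = (x - z.re) ^ 2 + (y - z.im) ^ 2 := by
    intro x y
    rw [Complex.sq_norm, Complex.normSq_apply]
    simp
    ring
  have hH : ∀ y, y = y₀ ∨ y = y₁ → ∀ D : ℝ, 0 < D → D ^ 2 = (y - z.im) ^ 2 →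
      ‖∫ x in x₀..x₁, f (x + (y : ℝ) * I)‖ ≤ 2 * Real.pi / D := by
    intro y hy' D hD hD2
    apply norm_line_le (c := z.re) hD hx
    intro x hx'
    refine (hf _ (mem_bd_h hy hy' hx')).trans (le_of_eq ?_)
    rw [hn, hD2, add_comm]
  have hV : ∀ x, x = x₀ ∨ x = x₁ → ∀ D : ℝ, 0 < D → D ^ 2 = (x - z.re) ^ 2 →
      ‖∫ y in y₀..y₁, f ((x : ℝ) + y * I)‖ ≤ 2 * Real.pi / D := by
    intro x hx' D hD hD2
    apply norm_line_le (c := z.im) hD hy
    intro y hy'
    refine (hf _ (mem_bd_v hx hx' hy')).trans (le_of_eq ?_)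
    rw [hn, hD2]
  have e1 := hH y₀ (Or.inl rfl) (z.im - y₀) (by linarith) (by ring)
  have e2 := hH y₁ (Or.inr rfl) (y₁ - z.im) (by linarith) (by ring)
  have e3 := hV x₁ (Or.inr rfl) (x₁ - z.re) (by linarith) (by ring)
  have e4 := hV x₀ (Or.inl rfl) (z.re - x₀) (by linarith) (by ring)
  unfold rect
  refine (norm_sub_le _ _).trans (add_le_add ((norm_add_le _ _).trans (add_le_add
    ((norm_sub_le _ _).trans (add_le_add e1 e2)) ?_)) ?_)
  · rw [norm_smul, Complex.norm_I, one_mul]; exact e3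
  · rw [norm_smul, Complex.norm_I, one_mul]; exact e4

/-- radius -/
noncomputable def RR (j : ℕ) : ℝ := 2 * Real.pi * j + Real.pi / 2

/-- half height -/
noncomputable def YY (j : ℕ) : ℝ := (2 * j + 1) * Real.pi

theorem RR_tendsto : Tendsto RR atTop atTop := by
  unfold RR
  apply tendsto_atTop_add_const_right
  exact tendsto_natCast_atTop_atTop.const_mul_atTop (by positivity)

theorem YY_tendsto : Tendsto YY atTop atTop := by
  unfold YY
  apply Tendsto.atTop_mul_const Real.pi_pos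
  apply tendsto_atTop_add_const_right
  exact tendsto_natCast_atTop_atTop.const_mul_atTop (by positivity)

theorem XX_tendsto : Tendsto (fun j => Real.log (RR j)) atTop atTop :=
  Real.tendsto_log_atTop.comp RR_tendsto

theorem bd_low : ∀ᶠ j : ℕ in atTop, ∀ ζ ∈ bd (-(j : ℝ)) (Real.log (RR j)) (-(YY j)) (YY j),
    1 / 2 ≤ ‖G ζ‖ := by
  have h1 : ∀ᶠ j : ℕ in atTop, 4 + |LL| ≤ (j : ℝ) :=
    tendsto_natCast_atTop_atTop.eventually_ge_atTop _
  filter_upwards [RR_tendsto.eventually good_eventually, h1] with j hj hj1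
  intro ζ hζ
  obtain ⟨hre, him, hbd⟩ := hζ
  have hζ' : ζ = (ζ.re : ℂ) + ζ.im * I := (Complex.re_add_im ζ).symm
  have hpi := Real.pi_gt_three
  have hLL := abs_nonneg LL
  rcases hbd with h | h | h | h
  · have := low_left (z := ζ) (by rw [h]; linarith)
    rw [h] at this
    linarith
  · rw [hζ', h]
    apply low_right hj rfl
    rw [abs_le]
    exact him
  · have h2 := low_horiz ζ.re (-(j : ℤ) - 1)
    have h3 : (2 * ((-(j : ℤ) - 1 : ℤ) : ℝ) + 1) * Real.pi = ζ.im := by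
      rw [h, YY]; push_cast; ring
    rw [h3, ← hζ'] at h2
    have h4 := one_le_abs_odd (-(j : ℤ) - 1)
    nlinarith
  · have h2 := low_horiz ζ.re (j : ℤ)
    have h3 : (2 * ((j : ℤ) : ℝ) + 1) * Real.pi = ζ.im := by
      rw [h, YY]; push_cast; ring
    rw [h3, ← hζ'] at h2
    have h4 := one_le_abs_odd (j : ℤ)
    nlinarith

theorem in_op (z : ℂ) : ∀ᶠ j : ℕ in atTop,
    z ∈ op (-(j : ℝ)) (Real.log (RR j)) (-(YY j)) (YY j) := by
  have h1 : ∀ᶠ j : ℕ in atTop, -z.re < (j : ℝ) :=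
    tendsto_natCast_atTop_atTop.eventually_gt_atTop _
  filter_upwards [h1, XX_tendsto.eventually_gt_atTop z.re, YY_tendsto.eventually_gt_atTop |z.im|]
    with j h1 h2 h3
  rw [abs_lt] at h3
  exact ⟨⟨by linarith, h2⟩, h3⟩

theorem op_subset_compact (j : ℕ) : ∃ K : Set ℂ, IsCompact K ∧
    op (-(j : ℝ)) (Real.log (RR j)) (-(YY j)) (YY j) ⊆ K := by
  refine ⟨Icc (-(j : ℝ)) (Real.log (RR j)) ×ℂ Icc (-(YY j)) (YY j),
    isCompact_Icc.reProdIm isCompact_Icc, ?_⟩
  intro z hz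
  exact ⟨Ioo_subset_Icc_self hz.1, Ioo_subset_Icc_self hz.2⟩

theorem zeros_op_finite (j : ℕ) :
    {t : ℂ | G t = 0 ∧ t ∈ op (-(j : ℝ)) (Real.log (RR j)) (-(YY j)) (YY j)}.Finite := by
  obtain ⟨K, hK, hsub⟩ := op_subset_compact j
  exact (zeros_finite_of_compact hK).subset fun t ht => ⟨ht.1, hsub ht.2⟩

/-- zeros in the j-th rectangle -/
noncomputable def SS (j : ℕ) : Finset ℂ := (zeros_op_finite j).toFinset

theorem mem_SS {j : ℕ} {t : ℂ} : t ∈ SS j ↔
    G t = 0 ∧ t ∈ op (-(j : ℝ)) (Real.log (RR j)) (-(YY j)) (YY j) := by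
  rw [SS, Set.Finite.mem_toFinset, Set.mem_ofPred_eq]

theorem sum_tendsto {z : ℂ} (hz : G z ≠ 0) :
    Tendsto (fun j => ∑ t ∈ SS j, (Complex.exp (Complex.exp t))⁻¹ / (z - t) ^ 2) atTop
      (𝓝 (Complex.exp (Complex.exp z) / (G z) ^ 2)) := by
  have hb : Tendsto (fun j : ℕ => 2 * Real.pi / (z.im - -(YY j)) + 2 * Real.pi / (YY j - z.im) +
      2 * Real.pi / (Real.log (RR j) - z.re) + 2 * Real.pi / (z.re - -(j : ℝ))) atTop (𝓝 0) := by
    have t1 : Tendsto (fun j : ℕ => z.im - -(YY j)) atTop atTop := by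
      simp only [sub_neg_eq_add]
      exact tendsto_atTop_add_const_left _ _ YY_tendsto
    have t2 : Tendsto (fun j : ℕ => YY j - z.im) atTop atTop :=
      tendsto_atTop_add_const_right _ _ YY_tendsto
    have t3 : Tendsto (fun j : ℕ => Real.log (RR j) - z.re) atTop atTop :=
      tendsto_atTop_add_const_right _ _ XX_tendsto
    have t4 : Tendsto (fun j : ℕ => z.re - -(j : ℝ)) atTop atTop := by
      simp only [sub_neg_eq_add]
      exact tendsto_atTop_add_const_left _ _ tendsto_natCast_atTop_atTop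
    have := (((t1.const_div_atTop (2 * Real.pi)).add (t2.const_div_atTop (2 * Real.pi))).add
      (t3.const_div_atTop (2 * Real.pi))).add (t4.const_div_atTop (2 * Real.pi))
    simpa using this
  rw [tendsto_iff_norm_sub_tendsto_zero]
  have hb2 : Tendsto (fun j : ℕ => (2 * Real.pi / (z.im - -(YY j)) + 2 * Real.pi / (YY j - z.im) +
      2 * Real.pi / (Real.log (RR j) - z.re) + 2 * Real.pi / (z.re - -(j : ℝ))) / (2 * Real.pi))
      atTop (𝓝 0) := by
    have := hb.div_const (2 * Real.pi)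
    rwa [zero_div] at this
  refine squeeze_zero' (Filter.Eventually.of_forall fun j => norm_nonneg _) ?_ hb2
  filter_upwards [bd_low, in_op z, eventually_gt_atTop 0] with j h1 h2 hj0
  have hx : -(j : ℝ) < Real.log (RR j) := by linarith [h2.1.1, h2.1.2]
  have hy : -(YY j) < YY j := by linarith [h2.2.1, h2.2.2]
  have key := rect_main (G := G) (G' := fun z => Complex.exp (Complex.exp z)) G_deriv G'_ne hx hy
    (SS j) (fun s hs => (mem_SS.1 hs).2) (fun s hs => (mem_SS.1 hs).1)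
    (by
      intro w hw1 hw2 hw3
      rw [mem_SS]
      refine ⟨hw3, ?_⟩
      by_contra hcon
      have hwb : w ∈ bd (-(j : ℝ)) (Real.log (RR j)) (-(YY j)) (YY j) := by
        refine ⟨hw1, hw2, ?_⟩
        by_contra hcon2
        push Not at hcon2
        apply hcon
        exact ⟨⟨lt_of_le_of_ne hw1.1 hcon2.1.symm, lt_of_le_of_ne hw1.2 hcon2.2.1⟩,
          lt_of_le_of_ne hw2.1 hcon2.2.2.1.symm, lt_of_le_of_ne hw2.2 hcon2.2.2.2⟩
      have := h1 w hwb
      rw [hw3, norm_zero] at this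
      linarith) h2 hz
  have hle := rect_norm_le (f := fun ζ => (G ζ)⁻¹ * ((ζ - z)⁻¹) ^ 2) h2 (by
    intro ζ hζ
    have h3 := h1 ζ hζ
    have h4 : ζ - z ≠ 0 := by
      intro h
      rw [sub_eq_zero] at h
      rw [h] at hζ
      exact op_bd hζ h2
    have h5 : 0 < ‖ζ - z‖ := norm_pos_iff.2 h4
    rw [norm_mul, norm_inv, norm_pow, norm_inv, inv_pow, div_eq_mul_inv]
    apply mul_le_mul_of_nonneg_right _ (by positivity)
    rw [inv_le_comm₀ (by linarith) (by norm_num)]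
    linarith)
  rw [key, norm_mul] at hle
  have h2pi : ‖(2 * Real.pi * I : ℂ)‖ = 2 * Real.pi := by
    rw [norm_mul, Complex.norm_I, mul_one, norm_mul, Complex.norm_real, Real.norm_eq_abs,
      abs_of_pos Real.pi_pos]
    simp
  rw [h2pi] at hle
  rw [le_div_iff₀ (by positivity), mul_comm]
  have h6 : (∑ t ∈ SS j, (Complex.exp (Complex.exp t))⁻¹ / (z - t) ^ 2) -
      Complex.exp (Complex.exp z) / (G z) ^ 2 = -(Complex.exp (Complex.exp z) / (G z) ^ 2) +
      ∑ t ∈ SS j, (Complex.exp (Complex.exp t))⁻¹ / (z - t) ^ 2 := by ring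
  rw [h6]
  exact hle

/-- zeros tend to infinity -/
theorem ZZ_finite_ball (r : ℝ) : {t : ZZ | ‖(t : ℂ)‖ ≤ r}.Finite := by
  have h1 := zeros_finite_of_compact (isCompact_closedBall (0 : ℂ) r)
  have h2 := h1.preimage (f := fun t : ZZ => (t : ℂ)) Subtype.val_injective.injOn
  apply h2.subset
  intro t ht
  exact ⟨t.2, by simpa using ht⟩

theorem G_zero_ne : G 0 ≠ 0 := by
  have h1 := norm_P_real_le 0
  have h2 : P (0 : ℝ) = hh (-1) - LL := by
    rw [P]; simp
  have h3 : G 0 = hh 1 - LL := by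
    rw [G]; simp
  -- real function x ↦ hh x on [-1,1]
  intro h0
  have h4 : hh 1 - hh (-1) = -(P (0 : ℝ)) := by
    rw [h2]
    have : hh 1 - LL = 0 := by rw [← h3, h0]
    linear_combination this
  rw [neg_zero, Real.exp_zero] at h1
  have h5 : 2 ≤ (hh 1 - hh (-1)).re := by
    -- derivative of s ↦ hh s - hh (-s) at real s ≥ 0
    have hd : ∀ s : ℝ, HasDerivAt (fun s : ℝ => (hh s - hh (-s)).re) ((kk s + kk (-s)).re) s := by
      intro s
      have e1 : HasDerivAt (fun s : ℝ => hh (s : ℂ)) (kk s) s := (hh_deriv _).comp_ofReal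
      have e2 : HasDerivAt (fun s : ℂ => hh (-s)) (kk (-s) * (-1)) s :=
        (hh_deriv _).comp (s : ℂ) (hasDerivAt_neg _)
      have e3 : HasDerivAt (fun s : ℝ => hh (-(s : ℂ))) (kk (-s) * (-1)) s := e2.comp_ofReal
      have e4 := e1.sub e3
      have e5 : kk s - kk (-s) * (-1) = kk s + kk (-s) := by ring
      rw [e5] at e4
      exact Complex.reCLM.hasFDerivAt.comp_hasDerivAt s e4
    have hpos : ∀ s : ℝ, s ∈ Ioo (0 : ℝ) 1 → 2 ≤ (kk s + kk (-s)).re := by
      intro s hs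
      have hs0 : (s : ℂ) ≠ 0 := by exact_mod_cast hs.1.ne'
      have e1 : kk s + kk (-s) = ((Real.exp s - Real.exp (-s)) / s : ℝ) := by
        have f1 := mul_kk (s : ℂ)
        have f2 := mul_kk (-(s : ℂ))
        push_cast
        rw [eq_div_iff hs0]
        linear_combination f1 - f2
      rw [e1, Complex.ofReal_re, le_div_iff₀ hs.1]
      have f3 := Real.self_le_sinh_iff.2 hs.1.le
      rw [Real.sinh_eq] at f3
      linarith
    have hmv : 2 * ((1 : ℝ) - 0) ≤ (fun s : ℝ => (hh s - hh (-s)).re) 1 - (fun s : ℝ => (hh s - hh (-s)).re) 0 := by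
      apply (convex_Icc (0 : ℝ) 1).mul_sub_le_image_sub_of_le_deriv
        (f := fun s : ℝ => (hh s - hh (-s)).re) (C := 2)
      · intro s _
        exact (hd s).continuousAt.continuousWithinAt
      · intro s _
        exact (hd s).differentiableAt.differentiableWithinAt
      · intro s hs
        rw [interior_Icc] at hs
        rw [(hd s).deriv]
        exact hpos s hs
      · simp
      · simp
      · norm_num
    simp only [Complex.ofReal_one, Complex.ofReal_zero, neg_zero, sub_self, Complex.zero_re, sub_zero,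
      mul_one] at hmv
    exact hmv
  rw [h4] at h5
  have h6 := Complex.re_le_norm (-(P (0 : ℝ)))
  rw [norm_neg] at h6
  linarith

theorem ZZ_ne_zero (t : ZZ) : (t : ℂ) ≠ 0 := by
  intro h
  have := t.2
  rw [h] at this
  exact G_zero_ne this

theorem summable_terms (z : ℂ) :
    Summable (fun t : ZZ => (Complex.exp (Complex.exp (t : ℂ)))⁻¹ / (z - t) ^ 2) := by
  apply Summable.of_norm_bounded_eventually (g := fun t : ZZ => 4 * ff t) (summable_zeros.mul_left 4)
  have h1 : ∀ᶠ t : ZZ in cofinite, ¬ ‖(t : ℂ)‖ ≤ 2 * ‖z‖ := (ZZ_finite_ball (2 * ‖z‖)).eventually_cofinite_notMem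
  filter_upwards [h1] with t ht
  push Not at ht
  have htpos : 0 < ‖(t : ℂ)‖ := norm_pos_iff.2 (ZZ_ne_zero t)
  have h2 : ‖(t : ℂ)‖ / 2 ≤ ‖z - t‖ := by
    have := norm_sub_le z (z - t)
    rw [sub_sub_cancel] at this
    linarith
  rw [norm_div, norm_pow, ← Complex.exp_neg, ff]
  have h3 : (‖(t : ℂ)‖ / 2) ^ 2 ≤ ‖z - t‖ ^ 2 := pow_le_pow_left₀ (by positivity) h2 2
  calc ‖Complex.exp (-Complex.exp t)‖ / ‖z - t‖ ^ 2 ≤ ‖Complex.exp (-Complex.exp t)‖ / (‖(t : ℂ)‖ / 2) ^ 2 :=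
        div_le_div_of_nonneg_left (norm_nonneg _) (by positivity) h3
    _ = _ := by
        field_simp
        norm_num

/-- The key identity. -/
theorem tsum_eq {z : ℂ} (hz : G z ≠ 0) :
    ∑' t : ZZ, (Complex.exp (Complex.exp (t : ℂ)))⁻¹ / (z - t) ^ 2 =
      Complex.exp (Complex.exp z) / (G z) ^ 2 := by
  classical
  have h1 := (summable_terms z).hasSum
  set TT : ℕ → Finset ZZ := fun j => (SS j).subtype (fun t => G t = 0) with hTT
  have h2 : Tendsto TT atTop atTop := by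
    rw [tendsto_atTop]
    intro u
    have h3 : ∀ᶠ j : ℕ in atTop, ∀ t ∈ u, (t : ℂ) ∈ op (-(j : ℝ)) (Real.log (RR j)) (-(YY j)) (YY j) := by
      rw [Filter.eventually_all_finset]
      intro t _
      exact in_op t
    filter_upwards [h3] with j hj
    intro t ht
    rw [hTT, Finset.mem_subtype, mem_SS]
    exact ⟨t.2, hj t ht⟩
  have h3 : Tendsto ((fun s : Finset ZZ => ∑ b ∈ s,
      (Complex.exp (Complex.exp (b : ℂ)))⁻¹ / (z - b) ^ 2) ∘ TT) atTop
      (𝓝 (∑' t : ZZ, (Complex.exp (Complex.exp (t : ℂ)))⁻¹ / (z - t) ^ 2)) := h1.comp h2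
  have h4 : ((fun s : Finset ZZ => ∑ b ∈ s, (Complex.exp (Complex.exp (b : ℂ)))⁻¹ / (z - b) ^ 2) ∘ TT) =
      fun j => ∑ t ∈ SS j, (Complex.exp (Complex.exp t))⁻¹ / (z - t) ^ 2 := by
    funext j
    simp only [Function.comp_apply, hTT]
    rw [Finset.sum_subtype_of_mem (fun t : ℂ => (Complex.exp (Complex.exp t))⁻¹ / (z - t) ^ 2)]
    intro t ht
    exact (mem_SS.1 ht).1
  rw [h4] at h3
  exact tendsto_nhds_unique h3 (sum_tendsto hz)

end Pool.Agent.H640R3.EG
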