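import Pool.Agent.H640R3.EG.Asy

set_option autoImplicit false

namespace Pool.Agent.H640R3.EG

open Complex Filter Topology Set

/-- conditions on the radius -/
structure Good (R : ℝ) : Prop where
  h0 : R0 ≤ R
  h1 : 60 ≤ R
  h2 : Real.pi / 2 * Real.log (4 * R ^ 2) ≤ Real.sqrt R

theorem good_eventually : ∀ᶠ R : ℝ in atTop, Good R := by
  have h2 : ∀ᶠ R : ℝ in atTop, Real.pi / 2 * Real.log (4 * R ^ 2) ≤ Real.sqrt R := by
    have hpi := Real.pi_pos
    filter_upwards [eventually_ge_atTop (2 * (4 * Real.pi) ^ 4), eventually_gt_atTop 0] with R hR hpos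
    set u := Real.sqrt (Real.sqrt (2 * R)) with hu
    have hu0 : 0 < u := Real.sqrt_pos.2 (Real.sqrt_pos.2 (by positivity))
    have hu4 : u ^ 4 = 2 * R := by
      have e1 : u ^ 2 = Real.sqrt (2 * R) := Real.sq_sqrt (Real.sqrt_nonneg _)
      have e2 : Real.sqrt (2 * R) ^ 2 = 2 * R := Real.sq_sqrt (by positivity)
      calc u ^ 4 = (u ^ 2) ^ 2 := by ring
        _ = _ := by rw [e1, e2]
    have hlog : Real.log (4 * R ^ 2) = 8 * Real.log u := by
      have : 4 * R ^ 2 = u ^ 8 := by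
        calc 4 * R ^ 2 = (2 * R) ^ 2 := by ring
          _ = (u ^ 4) ^ 2 := by rw [hu4]
          _ = u ^ 8 := by ring
      rw [this, Real.log_pow]
      norm_num
    have hlu : Real.log u ≤ u := (Real.log_le_sub_one_of_pos hu0).trans (by linarith)
    rw [hlog]
    apply Real.le_sqrt_of_sq_le
    have h3 : 0 ≤ 8 * u := by positivity
    rcases le_total 0 (Real.log u) with hl | hl
    · have h4 : (Real.pi / 2 * (8 * Real.log u)) ^ 2 ≤ (4 * Real.pi * u) ^ 2 := by
        apply pow_le_pow_left₀ (by positivity)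
        have := mul_le_mul_of_nonneg_left hlu (by positivity : 0 ≤ 4 * Real.pi)
        linarith
      refine h4.trans ?_
      have h5 : (4 * Real.pi) ^ 2 * u ^ 2 ≤ R := by
        have h6 : ((4 * Real.pi) ^ 2 * u ^ 2) ^ 2 ≤ R ^ 2 := by
          calc ((4 * Real.pi) ^ 2 * u ^ 2) ^ 2 = (4 * Real.pi) ^ 4 * u ^ 4 := by ring
            _ = (2 * (4 * Real.pi) ^ 4) * R := by rw [hu4]; ring
            _ ≤ R * R := mul_le_mul_of_nonneg_right hR hpos.le
            _ = R ^ 2 := by ring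
        exact le_of_sq_le_sq h6 hpos.le
      calc (4 * Real.pi * u) ^ 2 = (4 * Real.pi) ^ 2 * u ^ 2 := by ring
        _ ≤ R := h5
    · have hul : u ≤ 1 := by
        by_contra hcon
        push Not at hcon
        have := Real.log_pos hcon
        linarith
      exfalso
      have h7 : u ^ 4 ≤ 1 := pow_le_one₀ hu0.le hul
      have h8 : (1 : ℝ) ≤ (4 * Real.pi) ^ 4 := one_le_pow₀ (by linarith [Real.pi_gt_three])
      linarith
  filter_upwards [eventually_ge_atTop R0, eventually_ge_atTop 60, h2] with R a b c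
  exact ⟨a, b, c⟩

theorem Good.pos {R : ℝ} (h : Good R) : 0 < R := by linarith [h.h1]

/-- lower bound with a real phase estimate -/
theorem low_aux {R : ℝ} (hR : Good R) {j : ℕ} (hj : R = 2 * Real.pi * j + Real.pi / 2) {v a : ℝ}
    (hv : |v| ≤ Real.pi) (ha1 : Real.pi ≤ |a|) (ha2 : |a| ≤ 2 * R) :
    1 / 2 ≤ ‖(a : ℂ) * I + P ((Real.log R : ℝ) + v * I)‖ := by
  have hRpos := hR.pos
  have hR60 := hR.h1
  have hpi := Real.pi_gt_three
  have hX : Real.exp (Real.log R) = R := Real.exp_log hRpos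
  set z : ℂ := (Real.log R : ℝ) + v * I with hz
  have hP := main_est (x := Real.log R) (v := v) (by rw [hX]; exact hR.h0) hv
  rw [← norm_B, hX] at hP
  rw [← hz] at hP
  set ρ := ‖B z‖ with hρ
  have hρ' : ρ = Real.exp (-(R * Real.cos v)) / R := by
    rw [hρ, hz, norm_B, hX]
  have hρ0 : 0 ≤ ρ := norm_nonneg _
  have h6 : 6 / R ≤ 1 / 10 := by
    rw [div_le_div_iff₀ hRpos (by norm_num)]
    linarith
  have hE : ‖P z + B z‖ ≤ 1 / 10 + ρ / 10 := by linarith
  have haI : ‖(a : ℂ) * I‖ = |a| := by simp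
  have hPup : ‖P z‖ ≤ 1 / 10 + ρ / 10 + ρ := by
    have : ‖P z‖ ≤ ‖P z + B z‖ + ‖B z‖ := by
      have := norm_sub_le (P z + B z) (B z)
      rwa [add_sub_cancel_right] at this
    linarith
  have hPlow : ρ - (1 / 10 + ρ / 10) ≤ ‖P z‖ := by
    have : ‖B z‖ ≤ ‖P z + B z‖ + ‖P z‖ := by
      have := norm_sub_le (P z + B z) (P z)
      rwa [add_sub_cancel_left] at this
    linarith
  by_cases c1 : ρ ≤ |a| / 2
  · have : ‖(a : ℂ) * I‖ ≤ ‖(a : ℂ) * I + P z‖ + ‖P z‖ := by
      have := norm_sub_le ((a : ℂ) * I + P z) (P z)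
      rwa [add_sub_cancel_right] at this
    rw [haI] at this
    linarith
  by_cases c2 : 2 * |a| ≤ ρ
  · have : ‖P z‖ ≤ ‖(a : ℂ) * I + P z‖ + ‖(a : ℂ) * I‖ := by
      have := norm_sub_le ((a : ℂ) * I + P z) ((a : ℂ) * I)
      rwa [add_sub_cancel_left] at this
    rw [haI] at this
    linarith
  push Not at c1 c2
  -- zone 3
  have hex1 : Real.exp (-(R * Real.cos v)) < 4 * R ^ 2 := by
    have h1 : ρ < 4 * R := by linarith
    rw [hρ', div_lt_iff₀ hRpos] at h1
    linarith
  have hex2 : 1 < Real.exp (-(R * Real.cos v)) := by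
    have h1 : 3 / 2 < ρ := by linarith
    rw [hρ', lt_div_iff₀ hRpos] at h1
    linarith
  have hcosneg : Real.cos v < 0 := by
    rw [Real.one_lt_exp_iff] at hex2
    by_contra hcon
    push Not at hcon
    have := mul_nonneg hRpos.le hcon
    linarith
  have hlog : -(R * Real.cos v) ≤ Real.log (4 * R ^ 2) := by
    rw [Real.le_log_iff_exp_le (by positivity)]
    exact hex1.le
  set w := |v| - Real.pi / 2 with hw
  have hcosabs : Real.cos |v| = Real.cos v := Real.cos_abs v
  have hw0 : 0 ≤ w := by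
    by_contra hcon
    push Not at hcon
    have : 0 ≤ Real.cos |v| := Real.cos_nonneg_of_mem_Icc ⟨by linarith [abs_nonneg v], by linarith⟩
    linarith
  have hwpi : w ≤ Real.pi / 2 := by linarith
  have hsinw : Real.sin w = -Real.cos v := by
    rw [hw, Real.sin_sub_pi_div_two, hcosabs]
  have hcosw : Real.cos w = Real.sin |v| := by
    rw [hw, Real.cos_sub_pi_div_two]
  have hsin := Real.mul_le_sin hw0 hwpi
  have hwR : w * R ≤ Real.sqrt R := by
    have h1 : R * (2 / Real.pi * w) ≤ Real.log (4 * R ^ 2) := by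
      have := mul_le_mul_of_nonneg_left hsin hRpos.le
      rw [hsinw] at this
      linarith
    have h2 : w * R = Real.pi / 2 * (R * (2 / Real.pi * w)) := by
      field_simp
    rw [h2]
    exact (mul_le_mul_of_nonneg_left h1 (by positivity)).trans hR.h2
  have hsq : Real.sqrt R * Real.sqrt R = R := Real.mul_self_sqrt hRpos.le
  have hsqpos : 0 < Real.sqrt R := Real.sqrt_pos.2 hRpos
  have hsq2 : 2 ≤ Real.sqrt R := Real.le_sqrt_of_sq_le (by linarith)
  have hws : w * Real.sqrt R ≤ 1 := by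
    have : (w * Real.sqrt R) * Real.sqrt R ≤ 1 * Real.sqrt R := by
      rw [mul_assoc, hsq, one_mul]; exact hwR
    exact le_of_mul_le_mul_right this hsqpos
  have hw12 : w ≤ 1 / 2 := by nlinarith
  have hRw2 : R * w ^ 2 ≤ 1 := by
    have : R * w ^ 2 = (w * Real.sqrt R) ^ 2 := by
      rw [mul_pow, Real.sq_sqrt hRpos.le]; ring
    rw [this]
    exact pow_le_one₀ (by positivity) hws
  set δ := w - R * (1 - Real.cos w) with hδ
  have hcw := Real.one_sub_sq_div_two_le_cos (x := w)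
  have hcw1 := Real.cos_le_one w
  have hδ1 : δ ≤ 1 := by
    have := mul_nonneg hRpos.le (sub_nonneg.2 hcw1)
    linarith
  have hδ2 : -1 ≤ δ := by
    have h1 : R * (1 - Real.cos w) ≤ R * (w ^ 2 / 2) :=
      mul_le_mul_of_nonneg_left (by linarith) hRpos.le
    linarith
  have hcosδ : 1 / 2 ≤ Real.cos δ := by
    have h1 := Real.one_sub_sq_div_two_le_cos (x := δ)
    have h2 : δ ^ 2 ≤ 1 := by
      rw [sq_le_one_iff_abs_le_one, abs_le]
      exact ⟨hδ2, hδ1⟩
    linarith
  have hphase : Real.cos (R * Real.sin |v| + |v|) = -Real.cos δ := by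
    have h1 : R * Real.sin |v| + |v| = (δ + Real.pi) + j * (2 * Real.pi) := by
      rw [← hcosw]
      have : |v| = w + Real.pi / 2 := by rw [hw]; ring
      rw [this, hδ]
      have : R = 2 * Real.pi * j + Real.pi / 2 := hj
      linear_combination this
    rw [h1, Real.cos_add_nat_mul_two_pi, Real.cos_add_pi]
  have hphase2 : Real.cos (R * Real.sin v + v) = Real.cos (R * Real.sin |v| + |v|) := by
    rcases le_total 0 v with h | h
    · rw [abs_of_nonneg h]
    · rw [abs_of_nonpos h, Real.sin_neg]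
      rw [← Real.cos_neg]
      congr 1
      ring
  have hBre : (B z).re = ρ * Real.cos (R * Real.sin v + v) := by
    have h1 : B z = Complex.exp (-Complex.exp z - z) := by
      rw [B, ← Complex.exp_add]; congr 1
    have h2 : ρ = Real.exp ((-Complex.exp z - z).re) := by
      rw [hρ, h1, Complex.norm_exp]
    rw [h1, Complex.exp_re, ← h2]
    have h3 : (-Complex.exp z - z).im = -(R * Real.sin v + v) := by
      rw [Complex.sub_im, Complex.neg_im, Complex.exp_im, hz]
      simp [hX]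
      ring
    rw [h3, Real.cos_neg]
  rw [hphase2, hphase] at hBre
  have hre : |(P z).re| ≤ ‖(a : ℂ) * I + P z‖ := by
    have h1 := Complex.abs_re_le_norm ((a : ℂ) * I + P z)
    have h2 : ((a : ℂ) * I + P z).re = (P z).re := by simp
    rwa [h2] at h1
  have hre2 : |(P z + B z).re| ≤ 1 / 10 + ρ / 10 := (Complex.abs_re_le_norm _).trans hE
  rw [Complex.add_re, hBre] at hre2
  have h7 := (abs_le.1 hre2).1
  have h8 : ρ * (1 / 2) ≤ ρ * Real.cos δ := mul_le_mul_of_nonneg_left hcosδ hρ0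
  have h9 := le_abs_self (P z).re
  have h10 : 3 / 2 < ρ := by linarith
  linarith

/-- index of the strip -/
theorem exists_strip (y : ℝ) : ∃ k : ℤ, |y - (2 * k + 1) * Real.pi| ≤ Real.pi ∧
    ∀ j : ℕ, |y| ≤ (2 * j + 1) * Real.pi → |(2 * (k : ℝ) + 1)| ≤ 2 * j + 1 := by
  have hpi := Real.pi_pos
  refine ⟨⌊y / (2 * Real.pi)⌋, ?_, ?_⟩
  · have h1 := Int.floor_le (y / (2 * Real.pi))
    have h2 := Int.lt_floor_add_one (y / (2 * Real.pi))
    rw [le_div_iff₀ (by positivity)] at h1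
    rw [div_lt_iff₀ (by positivity)] at h2
    rw [abs_le]
    constructor <;> linarith
  · intro j hj
    rw [abs_le] at hj
    have h1 : ⌊y / (2 * Real.pi)⌋ < (j : ℤ) + 1 := by
      rw [Int.floor_lt]
      push_cast
      rw [div_lt_iff₀ (by positivity)]
      linarith
    have h2 : -(j : ℤ) - 1 ≤ ⌊y / (2 * Real.pi)⌋ := by
      rw [Int.le_floor]
      push_cast
      rw [le_div_iff₀ (by positivity)]
      linarith
    have h3 : ((⌊y / (2 * Real.pi)⌋ : ℤ) : ℝ) ≤ j := by exact_mod_cast Int.lt_add_one_iff.1 h1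
    have h4 : (-(j : ℝ) - 1) ≤ ((⌊y / (2 * Real.pi)⌋ : ℤ) : ℝ) := by exact_mod_cast h2
    rw [abs_le]
    constructor <;> linarith

theorem one_le_abs_odd (k : ℤ) : 1 ≤ |2 * (k : ℝ) + 1| := by
  have h : (1 : ℤ) ≤ |2 * k + 1| := by
    apply Int.one_le_abs
    omega
  exact_mod_cast h

/-- lower bound on the right side -/
theorem low_right {R : ℝ} (hR : Good R) {j : ℕ} (hj : R = 2 * Real.pi * j + Real.pi / 2) {y : ℝ}
    (hy : |y| ≤ (2 * j + 1) * Real.pi) :
    1 / 2 ≤ ‖G ((Real.log R : ℝ) + y * I)‖ := by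
  obtain ⟨k, hk1, hk2⟩ := exists_strip y
  have hk3 := hk2 j hy
  have hpi := Real.pi_pos
  have h1 : ((Real.log R : ℝ) : ℂ) + y * I =
      ((Real.log R : ℝ) + ((y - (2 * k + 1) * Real.pi : ℝ) : ℂ) * I) + ((2 * k + 1) * Real.pi : ℝ) * I := by
    push_cast
    ring
  rw [h1, G_eq]
  apply low_aux hR hj hk1
  · rw [abs_mul, abs_of_pos hpi]
    have := one_le_abs_odd k
    nlinarith
  · rw [abs_mul, abs_of_pos hpi]
    have h2 := mul_le_mul_of_nonneg_right hk3 hpi.le
    have := hR.h1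
    nlinarith [Real.pi_lt_four]

/-- lower bound on the horizontal sides -/
theorem low_horiz (x : ℝ) (k : ℤ) : |2 * (k : ℝ) + 1| * Real.pi ≤ ‖G ((x : ℂ) + ((2 * k + 1) * Real.pi : ℝ) * I)‖ := by
  rw [G_eq, P_real]
  have h := Complex.abs_im_le_norm ((((2 * k + 1) * Real.pi : ℝ) : ℂ) * I + ((pp x - LL : ℝ) : ℂ))
  have h2 : ((((2 * k + 1) * Real.pi : ℝ) : ℂ) * I + ((pp x - LL : ℝ) : ℂ)).im = (2 * k + 1) * Real.pi := by
    simp
  rw [h2, abs_mul, abs_of_pos Real.pi_pos] at h
  exact h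

/-- lower bound to the left -/
theorem low_left {z : ℂ} (hz : z.re ≤ 0) : -z.re - 3 - |LL| ≤ ‖G z‖ := by
  have h1 : ‖Complex.exp z‖ ≤ 1 := by
    rw [Complex.norm_exp, Real.exp_le_one_iff]; exact hz
  have h2 : ‖hh (Complex.exp z)‖ ≤ 3 := by
    refine (norm_hh_le _).trans ?_
    have h3 : Real.exp ‖Complex.exp z‖ ≤ Real.exp 1 := Real.exp_le_exp.2 h1
    have h4 := Real.exp_one_lt_d9
    have h5 := mul_le_mul h1 h3 (Real.exp_pos _).le zero_le_one
    linarith
  have h6 : ‖z‖ ≤ ‖G z‖ + ‖hh (Complex.exp z)‖ + ‖(LL : ℂ)‖ := by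
    have : z = G z - hh (Complex.exp z) + LL := by rw [G]; ring
    calc ‖z‖ = ‖G z - hh (Complex.exp z) + LL‖ := by rw [← this]
      _ ≤ _ := (norm_add_le _ _).trans (add_le_add_left (norm_sub_le _ _) _)
  have h7 : -z.re ≤ ‖z‖ := (neg_le_abs _).trans (Complex.abs_re_le_norm z)
  rw [Complex.norm_real, Real.norm_eq_abs] at h6
  linarith

end Pool.Agent.H640R3.EG
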