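import Pool.Agent.H640R3.EG.Count

set_option autoImplicit false

namespace Pool.Agent.H640R3.EG

open Complex Filter Topology Set Metric

theorem G'_ne (z : ℂ) : Complex.exp (Complex.exp z) ≠ 0 := Complex.exp_ne_zero _

theorem zeros_isolated (z : ℂ) : ∀ᶠ w in 𝓝[≠] z, G w ≠ 0 := (G_deriv z).eventually_ne (G'_ne z)

theorem zeros_finite_of_compact {K : Set ℂ} (hK : IsCompact K) : {z | G z = 0 ∧ z ∈ K}.Finite := by
  by_contra hinf
  obtain ⟨x, _, hx⟩ := Set.Infinite.exists_accPt_of_subset_isCompact hinf hK (fun z hz => hz.2)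
  rw [accPt_iff_frequently_nhdsNE] at hx
  apply hx
  filter_upwards [zeros_isolated x] with w hw hw2
  exact hw hw2.1

theorem norm_zero_le {t : ℂ} (ht : G t = 0) {x : ℝ} (hx : t.re ≤ x) :
    ‖t‖ ≤ Real.exp x * Real.exp (Real.exp x) + |LL| := by
  have h1 : t = -hh (Complex.exp t) + LL := by
    have : t + hh (Complex.exp t) - LL = 0 := ht
    linear_combination this
  have h5 : ‖Complex.exp t‖ ≤ Real.exp x := by
    rw [Complex.norm_exp]
    exact Real.exp_le_exp.2 hx
  have h6 : ‖hh (Complex.exp t)‖ ≤ Real.exp x * Real.exp (Real.exp x) := by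
    refine (norm_hh_le _).trans ?_
    exact mul_le_mul h5 (Real.exp_le_exp.2 h5) (Real.exp_pos _).le (by positivity)
  calc ‖t‖ = ‖-hh (Complex.exp t) + LL‖ := by rw [← h1]
    _ ≤ ‖-hh (Complex.exp t)‖ + ‖(LL : ℂ)‖ := norm_add_le _ _
    _ ≤ _ := by
      rw [norm_neg, Complex.norm_real, Real.norm_eq_abs]
      linarith

theorem zeros_finite_left (x : ℝ) : {z | G z = 0 ∧ z.re ≤ x}.Finite := by
  apply (zeros_finite_of_compact (isCompact_closedBall (0 : ℂ)
    (Real.exp x * Real.exp (Real.exp x) + |LL|))).subset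
  rintro z ⟨h1, h2⟩
  refine ⟨h1, ?_⟩
  rw [mem_closedBall_zero_iff]
  exact norm_zero_le h1 h2

theorem strip_floor (y : ℝ) : |y - (2 * (⌊y / (2 * Real.pi)⌋ : ℤ) + 1) * Real.pi| ≤ Real.pi := by
  have hpi := Real.pi_pos
  have h1 := Int.floor_le (y / (2 * Real.pi))
  have h2 := Int.lt_floor_add_one (y / (2 * Real.pi))
  rw [le_div_iff₀ (by positivity)] at h1
  rw [div_lt_iff₀ (by positivity)] at h2
  rw [abs_le]
  constructor <;> linarith

/-- the majorant -/
noncomputable def gg (b : ℕ × ℤ) : ℝ :=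
  (1 / (b.1 : ℝ) ^ (3 / 2 : ℝ)) * (1 / |(b.2 : ℝ) + 1 / 2| ^ (3 / 2 : ℝ))

theorem gg_nonneg (b : ℕ × ℤ) : 0 ≤ gg b := by
  unfold gg
  positivity

theorem gg_summable : Summable gg := by
  have h1 : Summable fun n : ℕ => 1 / (n : ℝ) ^ (3 / 2 : ℝ) :=
    Real.summable_one_div_nat_rpow.2 (by norm_num)
  have h2 : Summable fun k : ℤ => 1 / |(k : ℝ) + 1 / 2| ^ (3 / 2 : ℝ) :=
    (Real.summable_one_div_int_add_rpow (1 / 2) (3 / 2)).2 (by norm_num)
  exact h1.mul_of_nonneg h2 (fun n => by positivity) (fun k => by positivity)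

/-- the term -/
noncomputable def ff (t : ℂ) : ℝ := ‖Complex.exp (-Complex.exp t)‖ / ‖t‖ ^ 2

theorem ff_nonneg (t : ℂ) : 0 ≤ ff t := by
  unfold ff
  positivity

theorem sum_far (u : Finset ℂ) (hu : ∀ t ∈ u, G t = 0) (hu2 : ∀ t ∈ u, R0 + 60 < t.re) :
    ∑ t ∈ u, ff t ≤ ∑' b, 4 * CC * gg b := by
  classical
  set φ : ℂ → ℕ × ℤ := fun t => (⌊t.re⌋₊, ⌊t.im / (2 * Real.pi)⌋) with hφ
  have h1 : ∑ t ∈ u, ff t = ∑ b ∈ u.image φ, ∑ t ∈ u with φ t = b, ff t :=
    (Finset.sum_fiberwise_of_maps_to (fun t ht => Finset.mem_image_of_mem φ ht) _).symm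
  rw [h1]
  have h2 : ∀ b ∈ u.image φ, ∑ t ∈ u with φ t = b, ff t ≤ 4 * CC * gg b := by
    rintro ⟨n, k⟩ _
    have hmem : ∀ t ∈ u.filter (fun t => φ t = (n, k)), G t = 0 ∧ R0 + 60 < t.re ∧
        ⌊t.re⌋₊ = n ∧ ⌊t.im / (2 * Real.pi)⌋ = k := by
      intro t ht
      rw [Finset.mem_filter] at ht
      have h3 := ht.2
      simp only [hφ, Prod.mk.injEq] at h3
      exact ⟨hu t ht.1, hu2 t ht.1, h3.1, h3.2⟩
    have hR0 := R0_pos
    have hn : ∀ t ∈ u.filter (fun t => φ t = (n, k)), (n : ℝ) ≤ t.re := by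
      intro t ht
      obtain ⟨_, h4, h5, _⟩ := hmem t ht
      rw [← h5]
      exact Nat.floor_le (by linarith)
    have hn' : ∀ t ∈ u.filter (fun t => φ t = (n, k)), t.re ≤ n + 1 := by
      intro t ht
      obtain ⟨_, h4, h5, _⟩ := hmem t ht
      rw [← h5]
      exact (Nat.lt_floor_add_one _).le
    have hk : ∀ t ∈ u.filter (fun t => φ t = (n, k)), |t.im - (2 * k + 1) * Real.pi| ≤ Real.pi := by
      intro t ht
      obtain ⟨_, _, _, h6⟩ := hmem t ht
      rw [← h6]
      exact strip_floor _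
    have hcard := card_box n k _ (fun t ht => (hmem t ht).1) hn hn' hk
    have hterm : ∀ t ∈ u.filter (fun t => φ t = (n, k)), ff t ≤ 4 * gg (n, k) / Real.exp n := by
      intro t ht
      obtain ⟨h3, h4, h5, h6⟩ := hmem t ht
      have h7 := Real.add_one_le_exp t.re
      have hn1 : 1 ≤ n := by
        rw [← h5]
        exact Nat.le_floor (by push_cast; linarith)
      have h8 := term_bd h3 (by linarith) (by linarith) (hk t ht) hn1 (hn t ht)
      rw [le_div_iff₀ (Real.exp_pos _), mul_comm]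
      exact h8
    have h9 := Finset.sum_le_card_nsmul _ _ _ hterm
    rw [nsmul_eq_mul] at h9
    refine h9.trans ?_
    have h10 : 0 ≤ 4 * gg (n, k) / Real.exp n := by
      have := gg_nonneg (n, k)
      positivity
    refine (mul_le_mul_of_nonneg_right hcard h10).trans (le_of_eq ?_)
    field_simp
  refine (Finset.sum_le_sum h2).trans ?_
  exact Summable.sum_le_tsum _ (fun b _ => mul_nonneg (mul_nonneg (by norm_num) CC_pos.le) (gg_nonneg b))
    (gg_summable.mul_left _)

/-- The zeros of `G`. -/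
abbrev ZZ : Type := {t : ℂ // G t = 0}

theorem summable_zeros : Summable (fun t : ZZ => ff t) := by
  classical
  set S0 : Finset ℂ := (zeros_finite_left (R0 + 60)).toFinset with hS0
  apply summable_of_sum_le (c := ∑ t ∈ S0, ff t + ∑' b, 4 * CC * gg b) (fun t => ff_nonneg _)
  intro u
  have h1 : ∑ x ∈ u, ff x = ∑ x ∈ u.map (Function.Embedding.subtype _), ff x := by
    rw [Finset.sum_map]
    rfl
  rw [h1]
  set w : Finset ℂ := u.map (Function.Embedding.subtype _) with hw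
  have hw0 : ∀ t ∈ w, G t = 0 := by
    intro t ht
    rw [hw, Finset.mem_map] at ht
    obtain ⟨a, _, rfl⟩ := ht
    exact a.2
  rw [← Finset.sum_filter_add_sum_filter_not w (fun t => t.re ≤ R0 + 60)]
  apply add_le_add
  · apply Finset.sum_le_sum_of_subset_of_nonneg
    · intro t ht
      rw [Finset.mem_filter] at ht
      rw [hS0, Set.Finite.mem_toFinset]
      exact ⟨hw0 t ht.1, ht.2⟩
    · intro t _ _
      exact ff_nonneg t
  · apply sum_far
    · intro t ht
      exact hw0 t (Finset.mem_filter.1 ht).1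
    · intro t ht
      exact not_le.1 (Finset.mem_filter.1 ht).2

end Pool.Agent.H640R3.EG
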